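import Mathlib

/-! Definitions for the decorrelation of two theta sums along two Moebius maps. -/

set_option autoImplicit false
open Complex

namespace Pool.Agent.MP_74e98a_nt.H83

/-- Slowly varying coefficients supported in `[K / L, L * K]`. -/
structure Coef (K L : ℝ) (α : ℤ → ℂ) : Prop where
  bd : ∀ n, ‖α n‖ ≤ 1
  lip : ∀ n, ‖α (n + 1) - α n‖ ≤ L / K
  supp : ∀ n, α n ≠ 0 → K / L ≤ (n : ℝ) ∧ (n : ℝ) ≤ L * K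

/-- The theta sum `∑ α n e(-x n ^ 2 / 2)`. -/
noncomputable def Th (α : ℤ → ℂ) (x : ℝ) : ℂ :=
  ∑' n : ℤ, α n * cexp (-(Real.pi * x * (n : ℝ) ^ 2 : ℝ) * I)

/-- An integer Moebius map of positive determinant, of size `L` on the interval `[p, q]`. -/
structure Mob (L p q : ℝ) (a1 a2 a3 a4 : ℤ) : Prop where
  b1 : |(a1 : ℝ)| ≤ L
  b2 : |(a2 : ℝ)| ≤ L
  b3 : |(a3 : ℝ)| ≤ L
  b4 : |(a4 : ℝ)| ≤ L
  det : 0 < a1 * a4 - a2 * a3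
  den : ∀ u ∈ Set.Icc p q, 1 / L ≤ a3 * u + a4
  lo : ∀ u ∈ Set.Icc p q, 1 / L ≤ (a1 * u + a2) / (a3 * u + a4)
  hi : ∀ u ∈ Set.Icc p q, (a1 * u + a2) / (a3 * u + a4) ≤ L

/-- The decorrelation statement. -/
def DecorrStmt : Prop :=
  ∃ C κ : ℝ, 0 < C ∧ 0 < κ ∧ ∀ (K L lam p q : ℝ) (a1 a2 a3 a4 b1 b2 b3 b4 : ℤ) (α β : ℤ → ℂ)
    (c c' : ℝ → ℂ), 2 ≤ K → 2 ≤ L → |lam - 1| ≤ 1 / K → -L ≤ p → p ≤ q → q ≤ L →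
    Mob L p q a1 a2 a3 a4 → Mob L p q b1 b2 b3 b4 →
    (b1 * a2 ≠ b2 * a1 ∨ b3 * a4 ≠ b4 * a3) → (b1 * a4 ≠ b2 * a3 ∨ b3 * a2 ≠ b4 * a1) →
    Coef K L α → Coef K L β →
    (∀ u ∈ Set.Icc p q, HasDerivAt c (c' u) u ∧ ‖c u‖ ≤ L ∧ ‖c' u‖ ≤ L) →
    ContinuousOn c' (Set.Icc p q) →
    ‖∫ u in p..q, c u * Th α (lam * ((a1 * u + a2) / (a3 * u + a4)) ^ 2) *
        (starRingEnd ℂ) (Th β (lam * ((b1 * u + b2) / (b3 * u + b4)) ^ 2))‖ ≤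
      L ^ C * K ^ (1 - κ)

lemma Th_eq_sum {α : ℤ → ℂ} {S : Finset ℤ} (h : ∀ n, n ∉ S → α n = 0) (x : ℝ) :
    Th α x = ∑ n ∈ S, α n * cexp (-(Real.pi * x * (n : ℝ) ^ 2 : ℝ) * I) :=
  tsum_eq_sum fun n hn => by rw [h n hn, zero_mul]

end Pool.Agent.MP_74e98a_nt.H83
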