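import Pool.Agent.MP_74e98a_nt.H83.Defs

/-! Elementary tools: Gaussian sums, Poisson summation, Abel summation, one integration by parts. -/

set_option autoImplicit false
open Complex

namespace Pool.Agent.MP_74e98a_nt.H83

/-- `exp (i θ)`. -/
noncomputable def ex (θ : ℝ) : ℂ := cexp (θ * I)

/-- The Gaussian. -/
noncomputable def Om (x : ℝ) : ℝ := Real.exp (-(Real.pi * x ^ 2))

lemma norm_ex (θ : ℝ) : ‖ex θ‖ = 1 := norm_exp_ofReal_mul_I θ

lemma ex_add (a b : ℝ) : ex (a + b) = ex a * ex b := by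
  unfold ex; rw [← Complex.exp_add]; push_cast; ring_nf

lemma conj_ex (a : ℝ) : (starRingEnd ℂ) (ex a) = ex (-a) := by
  unfold ex; rw [← Complex.exp_conj]; simp

lemma Om_pos (x : ℝ) : 0 < Om x := Real.exp_pos _

lemma Om_le_one (x : ℝ) : Om x ≤ 1 := by
  unfold Om; rw [Real.exp_le_one_iff]; have := Real.pi_pos; nlinarith [sq_nonneg x]

lemma Om_le (x : ℝ) : Om x ≤ 1 / (1 + x ^ 2) := by
  have h1 : 1 + x ^ 2 ≤ Real.exp (Real.pi * x ^ 2) := by
    have := Real.add_one_le_exp (Real.pi * x ^ 2)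
    nlinarith [Real.pi_gt_three, sq_nonneg x]
  unfold Om; rw [Real.exp_neg, ← one_div]
  exact one_div_le_one_div_of_le (by positivity) h1

lemma abs_Om_le (x : ℝ) : (|x| + 1) * Om x ≤ 2 / (1 + x ^ 2) := by
  have h0 : 0 ≤ x ^ 2 := sq_nonneg x
  have h1 : (1 + x ^ 2) ^ 2 ≤ Real.exp (Real.pi * x ^ 2) := by
    have h2 := Real.add_one_le_exp (x ^ 2)
    have h3 : Real.exp (x ^ 2) ^ 2 ≤ Real.exp (Real.pi * x ^ 2) := by
      rw [← Real.exp_nat_mul]; apply Real.exp_le_exp.2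
      push_cast; nlinarith [Real.pi_gt_three]
    have h4 : (1 + x ^ 2) ^ 2 ≤ Real.exp (x ^ 2) ^ 2 := by gcongr; linarith
    linarith
  have h5 : |x| + 1 ≤ 2 * (1 + x ^ 2) := by
    have := sq_abs x; nlinarith [abs_nonneg x, sq_nonneg (|x| - 1)]
  have h6 : Om x ≤ 1 / (1 + x ^ 2) ^ 2 := by
    unfold Om; rw [Real.exp_neg, ← one_div]
    exact one_div_le_one_div_of_le (by positivity) h1
  calc (|x| + 1) * Om x ≤ (2 * (1 + x ^ 2)) * (1 / (1 + x ^ 2) ^ 2) := by
        have := (Om_pos x).le; gcongr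
    _ = 2 / (1 + x ^ 2) := by field_simp

lemma arctan_step {x η : ℝ} (h0 : 0 < η) (h1 : η ≤ 1) :
    1 / (1 + x ^ 2) ≤ 3 / η * (Real.arctan (x + η) - Real.arctan x) := by
  obtain ⟨y, hy, hy2⟩ := exists_hasDerivAt_eq_slope Real.arctan (fun y => 1 / (1 + y ^ 2))
    (show x < x + η by linarith) Real.continuous_arctan.continuousOn
    (fun y _ => Real.hasDerivAt_arctan y)
  have h2 : Real.arctan (x + η) - Real.arctan x = η * (1 / (1 + y ^ 2)) := by
    rw [hy2, show x + η - x = η by ring]; field_simp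
  have h3 : 1 + y ^ 2 ≤ 3 * (1 + x ^ 2) := by
    have h4 : y = x + (y - x) := by ring
    have h5 : (y - x) ^ 2 ≤ 1 := by nlinarith [hy.1, hy.2]
    nlinarith [sq_nonneg (x - (y - x))]
  rw [h2, show 3 / η * (η * (1 / (1 + y ^ 2))) = 3 / (1 + y ^ 2) by field_simp,
    div_le_div_iff₀ (by positivity) (by positivity)]
  linarith

lemma count {w : ℝ} (hw : 1 ≤ w) (t : ℝ) (S : Finset ℤ) :
    ∑ m ∈ S, 1 / (1 + (((m : ℝ) - t) / w) ^ 2) ≤ 10 * w := by
  obtain ⟨a, ha⟩ := S.bddBelow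
  obtain ⟨b, hb⟩ := S.bddAbove
  have hsub : S ⊆ (Finset.range (b - a + 1).toNat).image (fun i : ℕ => a + (i : ℤ)) := by
    intro m hm
    have h1 := ha hm; have h2 := hb hm
    exact Finset.mem_image.2 ⟨(m - a).toNat, Finset.mem_range.2 (by omega), by omega⟩
  have hw0 : 0 < w := by linarith
  set T : ℕ → ℝ := fun i => Real.arctan (((a : ℝ) + i - t) / w)
  calc ∑ m ∈ S, 1 / (1 + (((m : ℝ) - t) / w) ^ 2)
      ≤ ∑ m ∈ (Finset.range (b - a + 1).toNat).image (fun i : ℕ => a + (i : ℤ)),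
          1 / (1 + (((m : ℝ) - t) / w) ^ 2) :=
        Finset.sum_le_sum_of_subset_of_nonneg hsub fun _ _ _ => by positivity
    _ = ∑ i ∈ Finset.range (b - a + 1).toNat, 1 / (1 + (((a : ℝ) + i - t) / w) ^ 2) := by
        rw [Finset.sum_image (fun i _ j _ h => by simpa using h)]; push_cast; rfl
    _ ≤ ∑ i ∈ Finset.range (b - a + 1).toNat, 3 * w * (T (i + 1) - T i) := by
        refine Finset.sum_le_sum fun i _ => ?_
        have h := arctan_step (x := ((a : ℝ) + i - t) / w) (η := 1 / w) (by positivity)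
          (by rw [div_le_one hw0]; exact hw)
        have e : ((a : ℝ) + i - t) / w + 1 / w = ((a : ℝ) + ((i + 1 : ℕ) : ℝ) - t) / w := by
          push_cast; ring
        rw [e, show 3 / (1 / w) = 3 * w by field_simp] at h
        exact h
    _ = 3 * w * (T (b - a + 1).toNat - T 0) := by rw [← Finset.mul_sum, Finset.sum_range_sub]
    _ ≤ 10 * w := by
        have h1 := Real.arctan_lt_pi_div_two (((a : ℝ) + ((b - a + 1).toNat : ℕ) - t) / w)
        have h2 := Real.neg_pi_div_two_lt_arctan (((a : ℝ) + (0 : ℕ) - t) / w)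
        have h3 : T (b - a + 1).toNat - T 0 ≤ 10 / 3 := by
          simp only [T]; linarith [Real.pi_lt_d2]
        nlinarith

lemma count_summable {w : ℝ} (hw : 1 ≤ w) (t : ℝ) :
    Summable fun m : ℤ => 1 / (1 + (((m : ℝ) - t) / w) ^ 2) :=
  summable_of_sum_le (fun _ => by positivity) (count hw t)

lemma count_tsum {w : ℝ} (hw : 1 ≤ w) (t : ℝ) :
    ∑' m : ℤ, 1 / (1 + (((m : ℝ) - t) / w) ^ 2) ≤ 10 * w :=
  Real.tsum_le_of_sum_le (fun _ => by positivity) (count hw t)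

/-- A series dominated by `B / (1 + ((m - t) / w) ^ 2)`. -/
lemma dom {w B : ℝ} (hw : 1 ≤ w) (hB : 0 ≤ B) (t : ℝ) {f : ℤ → ℂ}
    (h : ∀ m : ℤ, ‖f m‖ ≤ B * (1 / (1 + (((m : ℝ) - t) / w) ^ 2))) :
    Summable f ∧ ‖∑' m, f m‖ ≤ B * (10 * w) := by
  have hs := (count_summable hw t).mul_left B
  refine ⟨.of_norm_bounded hs h, (tsum_of_norm_bounded hs.hasSum h).trans ?_⟩
  rw [tsum_mul_left]; exact mul_le_mul_of_nonneg_left (count_tsum hw t) hB

lemma poisson {w : ℝ} (hw : 0 < w) (t ξ : ℝ) :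
    ∑' m : ℤ, (Om ((m - t) / w) : ℂ) * ex (2 * Real.pi * ξ * m) =
      ∑' k : ℤ, ((w * Om (w * (k - ξ)) : ℝ) : ℂ) * ex (2 * Real.pi * (ξ - k) * t) := by
  have hw' : (w : ℂ) ≠ 0 := by exact_mod_cast hw.ne'
  have ha : 0 < (((1 / w ^ 2 : ℝ) : ℂ)).re := by rw [ofReal_re]; positivity
  have h := Complex.tsum_exp_neg_quadratic ha ((t / w ^ 2 : ℝ) + I * ξ)
  have hp : (1 : ℂ) / (((1 / w ^ 2 : ℝ) : ℂ)) ^ (1 / 2 : ℂ) = w := by
    have e1 : (1 / 2 : ℂ) = ((1 / 2 : ℝ) : ℂ) := by push_cast; rfl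
    rw [e1, ← Complex.ofReal_cpow (by positivity), ← Real.sqrt_eq_rpow,
      show 1 / w ^ 2 = (1 / w) ^ 2 by field_simp, Real.sqrt_sq (by positivity)]
    push_cast; field_simp
  rw [hp] at h
  have e2 : ∀ m : ℤ, (Om ((m - t) / w) : ℂ) * ex (2 * Real.pi * ξ * m) =
      cexp (-(Real.pi * t ^ 2 / w ^ 2)) * cexp (-Real.pi * ((1 / w ^ 2 : ℝ) : ℂ) * m ^ 2 +
        2 * Real.pi * ((t / w ^ 2 : ℝ) + I * ξ) * m) := by
    intro m
    unfold Om ex
    rw [Complex.ofReal_exp, ← Complex.exp_add, ← Complex.exp_add]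
    congr 1; push_cast; field_simp; ring
  simp_rw [e2]
  rw [tsum_mul_left, h, ← mul_assoc, ← tsum_mul_left]
  refine tsum_congr fun k => ?_
  unfold Om ex
  rw [Complex.ofReal_mul, Complex.ofReal_exp, mul_comm (cexp _) (w : ℂ), mul_assoc, mul_assoc,
    ← Complex.exp_add, ← Complex.exp_add]
  congr 2; push_cast; field_simp
  linear_combination -((t : ℂ) ^ 2 + 2 * t * w ^ 2 * I * ξ +
    w ^ 4 * ξ ^ 2 * (I ^ 2 - 1) + 2 * w ^ 4 * k * ξ) * I_sq

lemma four_le_norm_ex {θ ε : ℝ} (h : ∀ j : ℤ, ε ≤ |θ - j|) : 4 * ε ≤ ‖ex (2 * Real.pi * θ) - 1‖ := by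
  have h1 := h (round θ)
  have h2 := abs_sub_round θ
  set y := θ - round θ with hy
  have e : ex (2 * Real.pi * θ) = cexp (I * ((2 * Real.pi * y : ℝ) : ℂ)) := by
    have : (2 * Real.pi * θ : ℝ) * I =
        I * ((2 * Real.pi * y : ℝ) : ℂ) + (round θ : ℤ) * (2 * Real.pi * I) := by
      rw [hy]; push_cast; ring
    unfold ex; rw [this, Complex.exp_add, Complex.exp_int_mul_two_pi_mul_I, mul_one]
  have hp := Real.pi_pos
  have h3 : |Real.pi * y| ≤ Real.pi / 2 := by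
    rw [abs_mul, abs_of_pos hp]; nlinarith
  have h4 := Real.mul_abs_le_abs_sin h3
  rw [abs_mul, abs_of_pos hp, show 2 / Real.pi * (Real.pi * |y|) = 2 * |y| by field_simp] at h4
  rw [e, Complex.norm_exp_I_mul_ofReal_sub_one, show 2 * Real.pi * y / 2 = Real.pi * y by ring,
    Real.norm_eq_abs, abs_mul, abs_two]
  linarith

/-- Abel summation for slowly varying coefficients. -/
lemma abel {B : ℤ → ℂ} {a b : ℤ} {δ N θ ε : ℝ} (hε : 0 < ε) (hδ : 0 ≤ δ)
    (hN : ((Finset.Icc a b).card : ℝ) + 1 ≤ N)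
    (hS : ∀ n, n ∉ Finset.Icc a b → B n = 0) (hl : ∀ n, ‖B (n + 1) - B n‖ ≤ δ)
    (h : ∀ j : ℤ, ε ≤ |θ - j|) :
    ‖∑ n ∈ Finset.Icc a b, B n * ex (2 * Real.pi * θ * n)‖ ≤ N * δ / (4 * ε) := by
  set T := ∑ n ∈ Finset.Icc a b, B n * ex (2 * Real.pi * θ * n) with hT
  have e1 : T = ∑ n ∈ Finset.Icc (a - 1) b, B n * ex (2 * Real.pi * θ * n) := by
    refine Finset.sum_subset (Finset.Icc_subset_Icc (by omega) le_rfl) fun n _ hn => ?_
    rw [hS n hn, zero_mul]
  have e2 : T = ∑ n ∈ Finset.Icc (a - 1) b, B (n + 1) * ex (2 * Real.pi * θ * ((n + 1 : ℤ) : ℝ)) := by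
    have e3 : T = ∑ n ∈ Finset.Icc a (b + 1), B n * ex (2 * Real.pi * θ * n) := by
      refine Finset.sum_subset (Finset.Icc_subset_Icc le_rfl (by omega)) fun n _ hn => ?_
      rw [hS n hn, zero_mul]
    rw [e3]
    refine Finset.sum_bij' (fun n _ => n - 1) (fun n _ => n + 1) ?_ ?_ ?_ ?_ ?_ <;>
      simp only [Finset.mem_Icc] <;> intros <;> first | omega | simp
  have e4 : (ex (2 * Real.pi * θ) - 1) * T = ∑ n ∈ Finset.Icc (a - 1) b,
      (B n - B (n + 1)) * ex (2 * Real.pi * θ * ((n + 1 : ℤ) : ℝ)) := by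
    rw [sub_mul, one_mul]
    nth_rewrite 1 [e1]
    rw [e2, Finset.mul_sum, ← Finset.sum_sub_distrib]
    refine Finset.sum_congr rfl fun n _ => ?_
    rw [show 2 * Real.pi * θ * ((n + 1 : ℤ) : ℝ) = 2 * Real.pi * θ + 2 * Real.pi * θ * n by
      push_cast; ring, ex_add]
    ring
  have hc : ((Finset.Icc (a - 1) b).card : ℝ) ≤ N := by
    refine le_trans ?_ hN
    rw [Int.card_Icc, Int.card_Icc]; norm_cast; omega
  have h5 : ‖ex (2 * Real.pi * θ) - 1‖ * ‖T‖ ≤ N * δ := by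
    rw [← norm_mul, e4]
    refine (norm_sum_le _ _).trans ((Finset.sum_le_card_nsmul _ _ δ fun n _ => ?_).trans ?_)
    · rw [norm_mul, norm_ex, mul_one, norm_sub_rev]; exact hl n
    · rw [nsmul_eq_mul]; gcongr
  rw [le_div_iff₀ (by positivity)]
  nlinarith [four_le_norm_ex h, norm_nonneg T]

lemma lip_int {β : ℤ → ℂ} {δ : ℝ} (hl : ∀ n, ‖β (n + 1) - β n‖ ≤ δ) (m n : ℤ) :
    ‖β m - β n‖ ≤ δ * |(m : ℝ) - n| := by
  have key : ∀ (k : ℕ) (n : ℤ), ‖β (n + k) - β n‖ ≤ δ * k := by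
    intro k n
    induction k with
    | zero => simp
    | succ k ih =>
      have := hl (n + k)
      calc ‖β (n + (k + 1 : ℕ)) - β n‖ = ‖(β (n + k + 1) - β (n + k)) + (β (n + k) - β n)‖ := by
            push_cast; rw [← add_assoc]; congr 1; ring
        _ ≤ δ + δ * k := (norm_add_le _ _).trans (add_le_add this ih)
        _ = δ * ((k + 1 : ℕ) : ℝ) := by push_cast; ring
  rcases le_total n m with h | h
  · obtain ⟨k, rfl⟩ := Int.le.dest h
    have := key k n
    push_cast; rwa [add_sub_cancel_left, Nat.abs_cast]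
  · obtain ⟨k, rfl⟩ := Int.le.dest h
    have := key k m
    push_cast; rwa [norm_sub_rev, abs_sub_comm, add_sub_cancel_left, Nat.abs_cast]

/-- One integration by parts. -/
lemma ibp_bound {G F R : ℝ → ℂ} {p q B : ℝ} (hpq : p ≤ q) (hF : ContinuousOn F (Set.Icc p q))
    (hG : ∀ u ∈ Set.Icc p q, HasDerivAt G (F u + R u) u) (hR : ∀ u ∈ Set.Icc p q, ‖R u‖ ≤ B) :
    ‖∫ u in p..q, F u‖ ≤ ‖G q‖ + ‖G p‖ + B * (q - p) := by
  set F1 : ℝ → ℂ := fun t => F (Set.projIcc p q hpq t)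
  have hF1 : Continuous F1 :=
    hF.comp_continuous (continuous_subtype_val.comp continuous_projIcc) fun t => Subtype.prop _
  have hF2 : ∀ t ∈ Set.Icc p q, F1 t = F t := fun t ht => by
    simp only [F1, Set.projIcc_of_mem hpq ht]
  have hW : ∀ u ∈ Set.Icc p q, HasDerivAt (fun t => G t - ∫ s in p..t, F1 s) (R u) u := by
    intro u hu
    have := (hG u hu).sub (hF1.integral_hasStrictDerivAt p u).hasDerivAt
    rwa [hF2 u hu, add_sub_cancel_left] at this
  have h1 := norm_image_sub_le_of_norm_deriv_le_segment'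
    (fun u hu => (hW u hu).hasDerivWithinAt) (fun u hu => hR u (Set.Ico_subset_Icc_self hu)) q
    (Set.right_mem_Icc.2 hpq)
  have e : ∫ u in p..q, F u = ∫ u in p..q, F1 u :=
    intervalIntegral.integral_congr fun t ht => (hF2 t (by rwa [Set.uIcc_of_le hpq] at ht)).symm
  rw [intervalIntegral.integral_same, sub_zero] at h1
  have e2 : ∫ u in p..q, F1 u = (G q - G p) - (G q - (∫ u in p..q, F1 u) - G p) := by ring
  rw [e, e2]
  exact (norm_sub_le _ _).trans (add_le_add (norm_sub_le _ _) h1)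

/-- `(1 - Om x) / x`. -/
noncomputable def Ef (x : ℝ) : ℝ := (1 - Om x) / x

lemma Ef_mul (x : ℝ) : Ef x * x = 1 - Om x := by
  unfold Ef
  rcases eq_or_ne x 0 with rfl | h
  · simp [Om]
  · field_simp

lemma one_sub_Om_le (x : ℝ) : 1 - Om x ≤ Real.pi * x ^ 2 := by
  have := Real.add_one_le_exp (-(Real.pi * x ^ 2)); unfold Om; linarith

lemma abs_Ef_le (x : ℝ) : |Ef x| ≤ Real.pi := by
  unfold Ef
  rcases eq_or_ne x 0 with rfl | h
  · simp [Real.pi_pos.le]
  have h0 := abs_pos.2 h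
  rw [abs_div, div_le_iff₀ h0, abs_of_nonneg (by linarith [Om_le_one x])]
  have h1 := one_sub_Om_le x
  have h2 := Om_pos x
  have h3 := Real.pi_gt_three
  rcases le_total |x| 1 with h4 | h4
  · rw [← sq_abs] at h1; nlinarith [mul_nonneg h0.le (sub_nonneg.2 h4)]
  · nlinarith

lemma hasDerivAt_Om (x : ℝ) : HasDerivAt Om (-(2 * Real.pi * x) * Om x) x := by
  have h := (((hasDerivAt_id x).pow 2).const_mul Real.pi).neg.exp
  unfold Om
  refine h.congr_deriv ?_
  simp; ring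

lemma hasDerivAt_Ef (x : ℝ) : ∃ d : ℝ, HasDerivAt Ef d x ∧ |d| ≤ 16 * (1 / (1 + x ^ 2)) := by
  have hp := Real.pi_pos
  have hp4 := Real.pi_le_four
  rcases eq_or_ne x 0 with rfl | h
  · refine ⟨Real.pi, ?_, by rw [abs_of_pos hp]; norm_num; linarith⟩
    rw [hasDerivAt_iff_isLittleO_nhds_zero, Asymptotics.isLittleO_iff]
    intro c hc
    have h1 : ∀ᶠ y : ℝ in nhds 0, |y| < min (1 / 2) (c / 16) := by
      have : Continuous fun y : ℝ => |y| := continuous_abs
      exact this.continuousAt.eventually_lt continuousAt_const (by simp; positivity)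
    filter_upwards [h1] with y hy
    rcases eq_or_ne y 0 with rfl | h
    · simp
    have h0 := abs_pos.2 h
    have hy1 := (lt_min_iff.1 hy).1
    have hy2 := (lt_min_iff.1 hy).2
    have hy3 : y ^ 2 ≤ 1 / 4 := by rw [← sq_abs]; nlinarith
    have h2 : |(-(Real.pi * y ^ 2))| ≤ 1 := by
      rw [abs_neg, abs_of_nonneg (by positivity)]; nlinarith [sq_nonneg y]
    have h3 := Real.abs_exp_sub_one_sub_id_le h2
    have e : Ef (0 + y) - Ef 0 - y • Real.pi =
        -(Real.exp (-(Real.pi * y ^ 2)) - 1 - -(Real.pi * y ^ 2)) / y := by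
      simp only [Ef, Om, zero_add, div_zero, smul_eq_mul]; field_simp; ring
    rw [e, Real.norm_eq_abs, Real.norm_eq_abs, abs_div, abs_neg, div_le_iff₀ h0]
    refine h3.trans ?_
    have h4 : (-(Real.pi * y ^ 2)) ^ 2 = Real.pi ^ 2 * y ^ 2 * (|y| * |y|) := by
      rw [abs_mul_abs_self]; ring
    have h5 : Real.pi ^ 2 * y ^ 2 ≤ c := by
      have : y ^ 2 ≤ c / 16 := by rw [← sq_abs]; nlinarith
      calc Real.pi ^ 2 * y ^ 2 ≤ 4 ^ 2 * (c / 16) := by gcongr
        _ = c := by ring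
    rw [h4, mul_assoc c]; gcongr
  · have h1 := ((hasDerivAt_Om x).const_sub 1).div (hasDerivAt_id x) h
    refine ⟨_, h1, ?_⟩
    have hx : 0 < x ^ 2 := by positivity
    have e : (-(-(2 * Real.pi * x) * Om x) * id x - (1 - Om x) * 1) / id x ^ 2 =
        2 * Real.pi * Om x - (1 - Om x) / x ^ 2 := by simp only [id]; field_simp
    have h2 := Om_le x
    have h3 := Om_pos x
    have h4 : 0 ≤ (1 - Om x) / x ^ 2 := div_nonneg (by linarith [Om_le_one x]) hx.le
    have h5 : (1 - Om x) / x ^ 2 ≤ 8 * (1 / (1 + x ^ 2)) := by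
      rw [mul_one_div, div_le_div_iff₀ hx (by positivity)]
      rcases le_total (x ^ 2) 1 with h6 | h6
      · have := one_sub_Om_le x
        calc (1 - Om x) * (1 + x ^ 2) ≤ (4 * x ^ 2) * 2 := by
              apply mul_le_mul (by nlinarith) (by linarith) (by positivity) (by positivity)
          _ = 8 * x ^ 2 := by ring
      · nlinarith
    have h7 : 2 * Real.pi * Om x ≤ 8 * (1 / (1 + x ^ 2)) := by
      apply mul_le_mul (by linarith) h2 h3.le (by norm_num)
    have h8 : 0 ≤ 2 * Real.pi * Om x := by positivity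
    rw [e, abs_le]; constructor <;> linarith

end Pool.Agent.MP_74e98a_nt.H83
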