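import Pool.Agent.MP_74e98a_nt.H83.Vdc

/-! Removing the terms away from the stationary strip by one integration by parts. -/

set_option autoImplicit false
open Complex

namespace Pool.Agent.MP_74e98a_nt.H83

/-- Two phases `X`, `Y` with `Y' = r`, `X' = r l ^ 2`, and bounds for `l`, `r`. -/
structure Ph (Λ p q : ℝ) (X Y l r l' r' : ℝ → ℝ) : Prop where
  dX : ∀ u ∈ Set.Icc p q, HasDerivAt X (r u * l u ^ 2) u
  dY : ∀ u ∈ Set.Icc p q, HasDerivAt Y (r u) u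
  dl : ∀ u ∈ Set.Icc p q, HasDerivAt l (l' u) u
  dr : ∀ u ∈ Set.Icc p q, HasDerivAt r (r' u) u
  l0 : ∀ u ∈ Set.Icc p q, 1 / Λ ≤ l u
  l1 : ∀ u ∈ Set.Icc p q, l u ≤ Λ
  r0 : ∀ u ∈ Set.Icc p q, 1 / Λ ≤ r u
  l2 : ∀ u ∈ Set.Icc p q, |l' u| ≤ Λ
  r2 : ∀ u ∈ Set.Icc p q, |r' u| ≤ Λ

lemma hasDerivAt_ex {φ : ℝ → ℝ} {d u : ℝ} (h : HasDerivAt φ d u) :
    HasDerivAt (fun u => ex (φ u)) (ex (φ u) * (d * I)) u :=
  (h.ofReal_comp.mul_const I).cexp

lemma continuous_Om : Continuous Om := by unfold Om; fun_prop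

lemma continuous_ex : Continuous ex := by unfold ex; fun_prop

/-- The amplitude of the integration by parts. -/
noncomputable def amp (w n m : ℝ) (l r : ℝ → ℝ) (u : ℝ) : ℝ :=
  Ef ((m - l u * n) / w) / (Real.pi * w * (r u * (m + l u * n)))

lemma amp_bounds {Λ p q K w n m u : ℝ} {X Y l r l' r' : ℝ → ℝ} (hP : Ph Λ p q X Y l r l' r')
    (hΛ : 1 ≤ Λ) (hK : 0 < K) (hw : 0 < w) (hn0 : K / Λ ≤ n) (hn1 : n ≤ Λ * K) (hm : K / Λ ≤ m)
    (hu : u ∈ Set.Icc p q) :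
    |amp w n m l r u| ≤ Λ ^ 2 / (w * K) ∧
      amp w n m l r u * (Real.pi * (r u * m ^ 2 - r u * l u ^ 2 * n ^ 2)) =
        1 - Om ((m - l u * n) / w) ∧
      ∃ d, HasDerivAt (amp w n m l r) d u ∧
        |d| ≤ 6 * Λ ^ 4 / w ^ 2 * (1 / (1 + ((m - l u * n) / w) ^ 2)) + 2 * Λ ^ 5 / (w * K) := by
  have hΛ0 : 0 < Λ := by linarith
  have hp := Real.pi_gt_three
  have hp0 := Real.pi_pos
  have hKΛ : 0 < K / Λ := by positivity
  have hn : 0 < n := by linarith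
  have hl : 0 < l u := lt_of_lt_of_le (by positivity) (hP.l0 u hu)
  have hr : 0 < r u := lt_of_lt_of_le (by positivity) (hP.r0 u hu)
  have hE : K / Λ ≤ m + l u * n := by nlinarith [mul_pos hl hn]
  have hE0 : 0 < m + l u * n := by linarith
  have hri : 1 / r u ≤ Λ := by rw [one_div_le hr hΛ0]; exact hP.r0 u hu
  have hEi : 1 / (m + l u * n) ≤ Λ / K := by
    rw [one_div_le hE0 (by positivity), one_div_div]; exact hE
  have hEf := abs_Ef_le ((m - l u * n) / w)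
  refine ⟨?_, ?_, ?_⟩
  · unfold amp
    rw [abs_div, abs_of_pos (show 0 < Real.pi * w * (r u * (m + l u * n)) by positivity)]
    calc _ ≤ Real.pi / (Real.pi * w * (r u * (m + l u * n))) := by gcongr
      _ = 1 / w * (1 / r u) * (1 / (m + l u * n)) := by field_simp
      _ ≤ 1 / w * Λ * (Λ / K) := by gcongr
      _ = _ := by field_simp
  · rw [← Ef_mul]; unfold amp; field_simp; ring
  · obtain ⟨d, hd, hdb⟩ := hasDerivAt_Ef ((m - l u * n) / w)
    have h1 : HasDerivAt (fun u => (m - l u * n) / w) (-(l' u * n) / w) u :=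
      (((hP.dl u hu).mul_const n).const_sub m).div_const w
    have h2 := hd.comp u h1
    have h3 := (((hP.dr u hu).mul (((hP.dl u hu).mul_const n).const_add m)).const_mul (Real.pi * w))
    have h4 := h2.div h3 (by simp only [Pi.mul_apply]; positivity)
    refine ⟨_, h4, ?_⟩
    simp only [Pi.mul_apply, Function.comp_apply]
    set x := (m - l u * n) / w
    set E := m + l u * n
    have e : (d * (-(l' u * n) / w) * (Real.pi * w * (r u * E)) -
        Ef x * (Real.pi * w * (r' u * E + r u * (l' u * n)))) / (Real.pi * w * (r u * E)) ^ 2 =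
        -(d * l' u * (n / w ^ 2 * (1 / Real.pi) * (1 / r u) * (1 / E))) -
          Ef x * r' u * (1 / Real.pi * (1 / w) * (1 / r u) ^ 2 * (1 / E)) -
          Ef x * l' u * (1 / Real.pi * (n / w) * (1 / r u) * (1 / E) ^ 2) := by
      field_simp; ring
    rw [e]
    have hl2 := hP.l2 u hu
    have hr2 := hP.r2 u hu
    have hpi : 1 / Real.pi ≤ 1 / 3 := by gcongr
    have t1 : |d * l' u * (n / w ^ 2 * (1 / Real.pi) * (1 / r u) * (1 / E))| ≤
        6 * Λ ^ 4 / w ^ 2 * (1 / (1 + x ^ 2)) := by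
      rw [abs_mul, abs_mul, abs_of_pos (show 0 < n / w ^ 2 * (1 / Real.pi) * (1 / r u) * (1 / E) by
        positivity)]
      calc _ ≤ 16 * (1 / (1 + x ^ 2)) * Λ * (Λ * K / w ^ 2 * (1 / 3) * Λ * (Λ / K)) := by gcongr
        _ = 16 / 3 * Λ ^ 4 / w ^ 2 * (1 / (1 + x ^ 2)) := by field_simp
        _ ≤ _ := by gcongr; norm_num
    have t2 : |Ef x * r' u * (1 / Real.pi * (1 / w) * (1 / r u) ^ 2 * (1 / E))| ≤
        Λ ^ 5 / (w * K) := by
      rw [abs_mul, abs_mul, abs_of_pos (show 0 < 1 / Real.pi * (1 / w) * (1 / r u) ^ 2 * (1 / E) by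
        positivity)]
      calc _ ≤ Real.pi * Λ * (1 / Real.pi * (1 / w) * Λ ^ 2 * (Λ / K)) := by gcongr
        _ = Λ ^ 4 / (w * K) := by field_simp
        _ ≤ _ := by gcongr; norm_num
    have t3 : |Ef x * l' u * (1 / Real.pi * (n / w) * (1 / r u) * (1 / E) ^ 2)| ≤
        Λ ^ 5 / (w * K) := by
      rw [abs_mul, abs_mul, abs_of_pos (show 0 < 1 / Real.pi * (n / w) * (1 / r u) * (1 / E) ^ 2 by
        positivity)]
      calc _ ≤ Real.pi * Λ * (1 / Real.pi * (Λ * K / w) * Λ * (Λ / K) ^ 2) := by gcongr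
        _ = Λ ^ 5 / (w * K) := by field_simp
    refine (abs_sub _ _).trans ((add_le_add ((abs_sub _ _).trans
      (add_le_add ((abs_neg _).trans_le t1) t2)) t3).trans_eq (by ring))

lemma c1 {S : Finset ℤ} {α β : ℤ → ℂ} {Λ p q K w N : ℝ} {X Y l r l' r' : ℝ → ℝ} {c c' : ℝ → ℂ}
    (hP : Ph Λ p q X Y l r l' r') (hΛ : 1 ≤ Λ) (hK : 0 < K) (hw : 1 ≤ w) (hpq : p ≤ q)
    (hS : ∀ n ∈ S, K / Λ ≤ (n : ℝ) ∧ (n : ℝ) ≤ Λ * K) (hN : (S.card : ℝ) ≤ N)
    (hα : ∀ n, ‖α n‖ ≤ 1) (hβ : ∀ n, ‖β n‖ ≤ 1)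
    (hc : ∀ u ∈ Set.Icc p q, HasDerivAt c (c' u) u ∧ ‖c u‖ ≤ Λ ∧ ‖c' u‖ ≤ Λ) :
    ‖∫ u in p..q, ∑ n ∈ S, ∑ m ∈ S, α n * (starRingEnd ℂ) (β m) *
        (c u * (1 - Om ((m - l u * n) / w) : ℝ) * ex (Real.pi * (Y u * m ^ 2 - X u * n ^ 2)))‖ ≤
      2 * (N ^ 2 * Λ ^ 3 / (w * K)) + (3 * N ^ 2 * Λ ^ 6 / (w * K) + 60 * N * Λ ^ 5 / w) * (q - p) := by
  have hw0 : 0 < w := by linarith
  have hΛ0 : 0 < Λ := by linarith
  have hN0 : 0 ≤ N := le_trans (by positivity) hN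
  have hab : ∀ n m, ‖α n * (starRingEnd ℂ) (β m)‖ ≤ 1 := fun n m => by
    rw [norm_mul, Complex.norm_conj]; exact mul_le_one₀ (hα n) (norm_nonneg _) (hβ m)
  set G : ℤ → ℤ → ℝ → ℂ := fun n m u => -I * (c u * (amp w n m l r u : ℝ) *
    ex (Real.pi * (Y u * m ^ 2 - X u * n ^ 2))) with hG
  have key : ∀ (n m : ℤ) (u : ℝ), ∃ R : ℂ, n ∈ S → m ∈ S → u ∈ Set.Icc p q →
      HasDerivAt (G n m) (c u * (1 - Om ((m - l u * n) / w) : ℝ) *
        ex (Real.pi * (Y u * m ^ 2 - X u * n ^ 2)) + R) u ∧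
      ‖R‖ ≤ 3 * Λ ^ 6 / (w * K) + 6 * Λ ^ 5 / w ^ 2 * (1 / (1 + ((m - l u * n) / w) ^ 2)) := by
    intro n m u
    by_cases h : n ∈ S ∧ m ∈ S ∧ u ∈ Set.Icc p q
    swap
    · exact ⟨0, fun h1 h2 h3 => absurd ⟨h1, h2, h3⟩ h⟩
    obtain ⟨hn, hm, hu⟩ := h
    obtain ⟨h1, h2, d, hd, hdb⟩ := amp_bounds hP hΛ hK hw0 (hS n hn).1 (hS n hn).2 (hS m hm).1 hu
    obtain ⟨hc1, hc2, hc3⟩ := hc u hu
    have h3 := hasDerivAt_ex ((((hP.dY u hu).mul_const ((m : ℝ) ^ 2)).sub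
      ((hP.dX u hu).mul_const ((n : ℝ) ^ 2))).const_mul Real.pi)
    have h4 := ((hc1.mul hd.ofReal_comp).mul h3).const_mul (-I)
    refine ⟨-I * ((c' u * (amp w n m l r u : ℝ) + c u * d) *
      ex (Real.pi * (Y u * m ^ 2 - X u * n ^ 2))), fun _ _ _ => ⟨h4.congr_deriv ?_, ?_⟩⟩
    · rw [← h2]
      simp only [Pi.mul_apply, Pi.sub_apply]
      push_cast
      linear_combination (-(c u * (amp w n m l r u : ℝ) * ex (Real.pi * (Y u * m ^ 2 - X u * n ^ 2)) *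
        (Real.pi * (r u * m ^ 2 - r u * l u ^ 2 * n ^ 2)))) * I_mul_I
    · rw [norm_mul, norm_mul, norm_ex, norm_neg, norm_I, one_mul, mul_one]
      refine (norm_add_le _ _).trans ?_
      rw [norm_mul, norm_mul, Complex.norm_real, Complex.norm_real, Real.norm_eq_abs,
        Real.norm_eq_abs]
      calc _ ≤ Λ * (Λ ^ 2 / (w * K)) + Λ * (6 * Λ ^ 4 / w ^ 2 * (1 / (1 + ((m - l u * n) / w) ^ 2)) +
            2 * Λ ^ 5 / (w * K)) := by gcongr
        _ = Λ ^ 3 / (w * K) + 2 * Λ ^ 6 / (w * K) +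
            6 * Λ ^ 5 / w ^ 2 * (1 / (1 + ((m - l u * n) / w) ^ 2)) := by ring
        _ ≤ Λ ^ 6 / (w * K) + 2 * Λ ^ 6 / (w * K) +
            6 * Λ ^ 5 / w ^ 2 * (1 / (1 + ((m - l u * n) / w) ^ 2)) := by gcongr; norm_num
        _ = _ := by ring
  choose R hR using key
  have hGb : ∀ u ∈ Set.Icc p q, ‖∑ n ∈ S, ∑ m ∈ S, α n * (starRingEnd ℂ) (β m) * G n m u‖ ≤
      N ^ 2 * Λ ^ 3 / (w * K) := by
    intro u hu
    refine (norm_sum_le _ _).trans ((Finset.sum_le_card_nsmul _ _ (N * (Λ ^ 3 / (w * K)))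
      fun n hn => ?_).trans ?_)
    · refine (norm_sum_le _ _).trans ((Finset.sum_le_card_nsmul _ _ (Λ ^ 3 / (w * K))
        fun m hm => ?_).trans (by rw [nsmul_eq_mul]; gcongr))
      have h1 := (amp_bounds hP hΛ hK hw0 (hS n hn).1 (hS n hn).2 (hS m hm).1 hu).1
      have h2 := (hc u hu).2.1
      have h3 := hab n m
      rw [norm_mul]
      simp only [hG]
      rw [norm_mul (-I), norm_mul _ (ex _), norm_mul (c u), norm_ex, norm_neg, norm_I, one_mul,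
        mul_one, Complex.norm_real, Real.norm_eq_abs]
      calc _ ≤ 1 * (Λ * (Λ ^ 2 / (w * K))) := by gcongr
        _ = _ := by ring
    · rw [nsmul_eq_mul]
      calc _ ≤ N * (N * (Λ ^ 3 / (w * K))) := by gcongr
        _ = _ := by ring
  have hcc : ContinuousOn c (Set.Icc p q) := fun u hu => (hc u hu).1.continuousAt.continuousWithinAt
  have hcl : ContinuousOn l (Set.Icc p q) := fun u hu => (hP.dl u hu).continuousAt.continuousWithinAt
  have hcX : ContinuousOn X (Set.Icc p q) := fun u hu => (hP.dX u hu).continuousAt.continuousWithinAt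
  have hcY : ContinuousOn Y (Set.Icc p q) := fun u hu => (hP.dY u hu).continuousAt.continuousWithinAt
  have hO := continuous_Om
  have hE := continuous_ex
  have main := ibp_bound (G := fun u => ∑ n ∈ S, ∑ m ∈ S, α n * (starRingEnd ℂ) (β m) * G n m u)
    (F := fun u => ∑ n ∈ S, ∑ m ∈ S, α n * (starRingEnd ℂ) (β m) *
      (c u * (1 - Om ((m - l u * n) / w) : ℝ) * ex (Real.pi * (Y u * m ^ 2 - X u * n ^ 2))))
    (R := fun u => ∑ n ∈ S, ∑ m ∈ S, α n * (starRingEnd ℂ) (β m) * R n m u)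
    (B := 3 * N ^ 2 * Λ ^ 6 / (w * K) + 60 * N * Λ ^ 5 / w) hpq (by fun_prop) ?_ ?_
  · linarith [hGb q (Set.right_mem_Icc.2 hpq), hGb p (Set.left_mem_Icc.2 hpq)]
  · intro u hu
    rw [← Finset.sum_add_distrib]
    refine HasDerivAt.fun_sum fun n hn => ?_
    rw [← Finset.sum_add_distrib]
    refine HasDerivAt.fun_sum fun m hm => ?_
    rw [← mul_add]
    exact (hR n m u hn hm hu).1.const_mul _
  · intro u hu
    refine (norm_sum_le _ _).trans ((Finset.sum_le_card_nsmul _ _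
      (N * (3 * Λ ^ 6 / (w * K)) + 6 * Λ ^ 5 / w ^ 2 * (10 * w)) fun n hn => ?_).trans ?_)
    · refine (norm_sum_le _ _).trans ((Finset.sum_le_sum fun m hm => ?_).trans
        (b := ∑ m ∈ S, (3 * Λ ^ 6 / (w * K) +
          6 * Λ ^ 5 / w ^ 2 * (1 / (1 + ((m - l u * n) / w) ^ 2)))) ?_)
      · rw [norm_mul]
        exact (mul_le_mul (hab n m) (hR n m u hn hm hu).2 (norm_nonneg _) zero_le_one).trans_eq
          (one_mul _)
      · rw [Finset.sum_add_distrib, Finset.sum_const, nsmul_eq_mul, ← Finset.mul_sum]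
        have := count hw (l u * n) S
        gcongr
    · rw [nsmul_eq_mul]
      calc _ ≤ N * (N * (3 * Λ ^ 6 / (w * K)) + 6 * Λ ^ 5 / w ^ 2 * (10 * w)) := by gcongr
        _ = _ := by field_simp; ring

end Pool.Agent.MP_74e98a_nt.H83
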