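import Pool.Agent.MP_74e98a_nt.H83.C1

/-! The exceptional set: sublevel sets of integer polynomials of degree at most six. -/

set_option autoImplicit false
open MeasureTheory Polynomial

namespace Pool.Agent.MP_74e98a_nt.H83

lemma sublevel (P : ℤ[X]) (hP : P ≠ 0) (hd : P.natDegree ≤ 6) {δ : ℝ} (h0 : 0 < δ) (h1 : δ ≤ 1) :
    ∃ E : Set ℝ, MeasurableSet E ∧ volume E ≤ ENNReal.ofReal (12 * δ) ∧
      ∀ u, u ∉ E → δ ^ 6 ≤ |aeval u P| := by
  classical
  set Q : ℂ[X] := P.map (Int.castRingHom ℂ) with hQ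
  have hinj : Function.Injective (Int.castRingHom ℂ) := Int.cast_injective
  have hs : Q.Splits := IsAlgClosed.splits Q
  have hcard : Q.roots.card ≤ 6 := by
    rw [← hs.natDegree_eq_card_roots, hQ, natDegree_map_eq_of_injective hinj]; exact hd
  refine ⟨⋃ z ∈ Q.roots.toFinset, Metric.ball z.re δ,
    Finset.measurableSet_biUnion _ fun _ _ => measurableSet_ball, ?_, fun u hu => ?_⟩
  · refine (measure_biUnion_finset_le _ _).trans ?_
    simp only [Real.volume_ball, Finset.sum_const, nsmul_eq_mul]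
    rw [← ENNReal.ofReal_natCast, ← ENNReal.ofReal_mul (by positivity)]
    apply ENNReal.ofReal_le_ofReal
    have : (Q.roots.toFinset.card : ℝ) ≤ 6 := by
      exact_mod_cast (Multiset.toFinset_card_le _).trans hcard
    nlinarith
  · have e : ((aeval u P : ℝ) : ℂ) = Q.eval (u : ℂ) := by
      rw [hQ, eval_map, ← algebraMap_int_eq, ← aeval_def]
      exact (aeval_algebraMap_apply ℂ u P).symm
    rw [← Real.norm_eq_abs, ← Complex.norm_real, e, hs.eval_eq_prod_roots, norm_mul]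
    have h2 : 1 ≤ ‖Q.leadingCoeff‖ := by
      rw [hQ, leadingCoeff_map_of_injective hinj, eq_intCast, Complex.norm_intCast]
      exact_mod_cast Int.one_le_abs (leadingCoeff_ne_zero.2 hP)
    have h3 : ∀ s : Multiset ℂ, (∀ z ∈ s, δ ≤ ‖(u : ℂ) - z‖) →
        δ ^ s.card ≤ ‖(s.map ((u : ℂ) - ·)).prod‖ := by
      intro s
      induction s using Multiset.induction_on with
      | empty => simp
      | cons z s ih =>
        intro h
        rw [Multiset.map_cons, Multiset.prod_cons, Multiset.card_cons, norm_mul, pow_succ']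
        exact mul_le_mul (h z (Multiset.mem_cons_self _ _))
          (ih fun y hy => h y (Multiset.mem_cons_of_mem hy)) (by positivity) (norm_nonneg _)
    have h4 := h3 Q.roots fun z hz => by
      have h5 : u ∉ Metric.ball z.re δ := fun h =>
        hu (Set.mem_biUnion (Multiset.mem_toFinset.2 hz) h)
      rw [Metric.mem_ball, Real.dist_eq, not_lt] at h5
      simpa using h5.trans (by simpa using Complex.abs_re_le_norm ((u : ℂ) - z))
    calc δ ^ 6 ≤ 1 * δ ^ Q.roots.card := by rw [one_mul]; exact pow_le_pow_of_le_one h0.le h1 hcard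
      _ ≤ _ := mul_le_mul h2 h4 (by positivity) (norm_nonneg _)

lemma cubic {a b c : ℝ} (h : ∀ s : ℝ, 0 ≤ a * s ^ 3 + b * s ^ 2 + c * s) : a = 0 ∧ c = 0 := by
  have hc : c = 0 := by
    have h1 : IsLocalMin (fun s : ℝ => a * s ^ 3 + b * s ^ 2 + c * s) 0 :=
      Filter.Eventually.of_forall fun s => by simpa using h s
    have h2 := ((((hasDerivAt_id (0 : ℝ)).pow 3).const_mul a).add
      (((hasDerivAt_id (0 : ℝ)).pow 2).const_mul b)).add ((hasDerivAt_id (0 : ℝ)).const_mul c)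
    simpa using h1.hasDerivAt_eq_zero h2
  refine ⟨?_, hc⟩
  by_contra ha
  have h1 := h (-(|b| + 1) / a)
  have e : a * (-(|b| + 1) / a) ^ 3 + b * (-(|b| + 1) / a) ^ 2 + c * (-(|b| + 1) / a) =
      (b - (|b| + 1)) * ((|b| + 1) / a) ^ 2 := by rw [hc]; field_simp; ring
  have h2 : 0 < ((|b| + 1) / a) ^ 2 := by positivity
  nlinarith [le_abs_self b]

/-- The polynomial controlling the exceptional set. -/
def PP (a1 a2 a3 a4 b1 b2 b3 b4 h h' k j : ℤ) (u : ℝ) : ℝ :=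
  (b1 * b4 - b2 * b3) * (b1 * u + b2) * (b3 * u + b4) *
      (h * (a1 * u + a2) ^ 2 + j * (a3 * u + a4) ^ 2) ^ 2 -
    (a1 * a4 - a2 * a3) * (a1 * u + a2) * (a3 * u + a4) *
      (h' * (b1 * u + b2) ^ 2 - k * (b3 * u + b4) ^ 2) ^ 2

lemma PP_ne {a1 a2 a3 a4 b1 b2 b3 b4 h : ℤ} (hD : 0 < a1 * a4 - a2 * a3)
    (hD' : 0 < b1 * b4 - b2 * b3) (n1 : b1 * a2 ≠ b2 * a1 ∨ b3 * a4 ≠ b4 * a3)
    (n2 : b1 * a4 ≠ b2 * a3 ∨ b3 * a2 ≠ b4 * a1) (hh : h ≠ 0) (h' k j : ℤ) :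
    ∃ u, PP a1 a2 a3 a4 b1 b2 b3 b4 h h' k j u ≠ 0 := by
  by_contra hcon
  push Not at hcon
  set m1 : ℤ := b1 * a4 - b2 * a3 with hm1
  set m2 : ℤ := b2 * a1 - b1 * a2 with hm2
  set m3 : ℤ := b3 * a4 - b4 * a3 with hm3
  set m4 : ℤ := b4 * a1 - b3 * a2 with hm4
  have hDr : (0 : ℝ) < a1 * a4 - a2 * a3 := by exact_mod_cast hD
  have hDr' : (0 : ℝ) < b1 * b4 - b2 * b3 := by exact_mod_cast hD'
  set T : ℝ[X] := (C (h : ℝ) * X ^ 2 + C (j : ℝ)) * (C (a1 : ℝ) - C (a3 : ℝ) * X) with hT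
  have hT0 : T ≠ 0 := by
    refine mul_ne_zero (fun h0 => hh ?_) fun h0 => ?_
    · have e0 := congrArg (eval 0) h0
      have e1 := congrArg (eval 1) h0
      simp at e0 e1
      simpa [e0] using e1
    · have e0 := congrArg (eval 0) h0
      have e1 := congrArg (eval 1) h0
      simp at e0 e1
      simp [e0] at e1
      simp [e0, e1] at hD
  have hd := (finite_setOfPred_isRoot hT0).countable.dense_compl ℝ
  have key : ∀ s : ℝ, 0 ≤ (m1 * m3 : ℤ) * s ^ 3 + (m1 * m4 + m2 * m3 : ℤ) * s ^ 2 +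
      (m2 * m4 : ℤ) * s := by
    refine hd.induction (fun s hs => ?_) (isClosed_le continuous_const (by fun_prop))
    have hs' : ((h : ℝ) * s ^ 2 + j) * (a1 - a3 * s) ≠ 0 := by simpa [hT, IsRoot] using hs
    have hA := left_ne_zero_of_mul hs'
    have hy := right_ne_zero_of_mul hs'
    have h0 := hcon ((a4 * s - a2) / (a1 - a3 * s))
    have e0 : ∀ x z : ℝ, x * ((a4 * s - a2) / (a1 - a3 * s)) + z =
        (x * (a4 * s - a2) + z * (a1 - a3 * s)) / (a1 - a3 * s) := fun x z => by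
      rw [add_div, mul_div_assoc, mul_div_cancel_right₀ _ hy]
    have e1 : a1 * ((a4 * s - a2) / (a1 - a3 * s)) + a2 =
        (a1 * a4 - a2 * a3) * s / (a1 - a3 * s) := by rw [e0]; congr 1; ring
    have e2 : a3 * ((a4 * s - a2) / (a1 - a3 * s)) + a4 =
        (a1 * a4 - a2 * a3) / (a1 - a3 * s) := by rw [e0]; congr 1; ring
    have e3 : b1 * ((a4 * s - a2) / (a1 - a3 * s)) + b2 = (m1 * s + m2) / (a1 - a3 * s) := by
      rw [e0, hm1, hm2]; congr 1; push_cast; ring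
    have e4 : b3 * ((a4 * s - a2) / (a1 - a3 * s)) + b4 = (m3 * s + m4) / (a1 - a3 * s) := by
      rw [e0, hm3, hm4]; congr 1; push_cast; ring
    unfold PP at h0
    rw [e1, e2, e3, e4] at h0
    generalize (h' : ℝ) * ((m1 * s + m2) / (a1 - a3 * s)) ^ 2 -
      k * ((m3 * s + m4) / (a1 - a3 * s)) ^ 2 = B at h0
    generalize (a1 : ℝ) * a4 - a2 * a3 = D at h0 hDr
    generalize (b1 : ℝ) * b4 - b2 * b3 = D' at h0 hDr'
    generalize (a1 : ℝ) - a3 * s = y at h0 hy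
    have e5 : ((m1 * m3 : ℤ) * s ^ 3 + (m1 * m4 + m2 * m3 : ℤ) * s ^ 2 + (m2 * m4 : ℤ) * s) *
        (D' * D ^ 4 * (h * s ^ 2 + j) ^ 2) = D ^ 3 * (s * B * y ^ 2) ^ 2 := by
      push_cast
      field_simp at h0
      linear_combination s * h0
    have h1 : 0 < D' * D ^ 4 * (h * s ^ 2 + j) ^ 2 := by positivity
    exact nonneg_of_mul_nonneg_left (by rw [e5]; positivity) h1
  obtain ⟨k1, k2⟩ := cubic key
  have k3 : m1 * m3 = 0 := by exact_mod_cast k1
  have k4 : m2 * m4 = 0 := by exact_mod_cast k2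
  have k5 : m1 * m4 - m2 * m3 = (a1 * a4 - a2 * a3) * (b1 * b4 - b2 * b3) := by
    rw [hm1, hm2, hm3, hm4]; ring
  have k6 : 0 < m1 * m4 - m2 * m3 := k5 ▸ mul_pos hD hD'
  rcases mul_eq_zero.1 k3 with h1 | h1 <;> rcases mul_eq_zero.1 k4 with h2 | h2
  · simp [h1, h2] at k6
  · omega
  · omega
  · simp [h1, h2] at k6

lemma badset {a1 a2 a3 a4 b1 b2 b3 b4 : ℤ} (hD : 0 < a1 * a4 - a2 * a3)
    (hD' : 0 < b1 * b4 - b2 * b3) (n1 : b1 * a2 ≠ b2 * a1 ∨ b3 * a4 ≠ b4 * a3)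
    (n2 : b1 * a4 ≠ b2 * a3 ∨ b3 * a2 ≠ b4 * a1) (R : ℕ) {δ : ℝ} (h0 : 0 < δ) (h1 : δ ≤ 1) :
    ∃ E : Set ℝ, MeasurableSet E ∧ volume E ≤ ENNReal.ofReal ((2 * R + 1) ^ 4 * (12 * δ)) ∧
      ∀ u, u ∉ E → ∀ h h' k j : ℤ, h ≠ 0 → |h| ≤ R → |h'| ≤ R → |k| ≤ R → |j| ≤ R →
        δ ^ 6 ≤ |PP a1 a2 a3 a4 b1 b2 b3 b4 h h' k j u| := by
  have key : ∀ v : ℤ × ℤ × ℤ × ℤ, ∃ E : Set ℝ, MeasurableSet E ∧
      volume E ≤ ENNReal.ofReal (12 * δ) ∧ ∀ u, u ∉ E → v.1 ≠ 0 →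
        δ ^ 6 ≤ |PP a1 a2 a3 a4 b1 b2 b3 b4 v.1 v.2.1 v.2.2.1 v.2.2.2 u| := by
    rintro ⟨h, h', k, j⟩
    by_cases hh : h = 0
    · exact ⟨∅, MeasurableSet.empty, by simp, fun u _ h => absurd hh h⟩
    set P : ℤ[X] := C (b1 * b4 - b2 * b3) * (C b1 * X + C b2) * (C b3 * X + C b4) *
        (C h * (C a1 * X + C a2) ^ 2 + C j * (C a3 * X + C a4) ^ 2) ^ 2 -
      C (a1 * a4 - a2 * a3) * (C a1 * X + C a2) * (C a3 * X + C a4) *
        (C h' * (C b1 * X + C b2) ^ 2 - C k * (C b3 * X + C b4) ^ 2) ^ 2 with hP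
    have e : ∀ u : ℝ, aeval u P = PP a1 a2 a3 a4 b1 b2 b3 b4 h h' k j u := fun u => by
      simp [hP, PP]
    obtain ⟨u0, hu0⟩ := PP_ne hD hD' n1 n2 hh h' k j
    obtain ⟨E, hE1, hE2, hE3⟩ := sublevel P (fun h => hu0 (by rw [← e, h, map_zero]))
      (by rw [hP]; compute_degree) h0 h1
    exact ⟨E, hE1, hE2, fun u hu _ => e u ▸ hE3 u hu⟩
  choose E hE1 hE2 hE3 using key
  set J : Finset ℤ := Finset.Icc (-(R : ℤ)) R
  have hJ : J.card = 2 * R + 1 := by simp only [J, Int.card_Icc]; omega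
  refine ⟨⋃ v ∈ J ×ˢ J ×ˢ J ×ˢ J, E v, Finset.measurableSet_biUnion _ fun v _ => hE1 v, ?_,
    fun u hu h h' k j hh r1 r2 r3 r4 => hE3 (h, h', k, j) u (fun hm => hu ?_) hh⟩
  · refine (measure_biUnion_finset_le _ _).trans
      ((Finset.sum_le_card_nsmul _ _ _ fun v _ => hE2 v).trans_eq ?_)
    simp only [Finset.card_product, hJ, nsmul_eq_mul]
    rw [← ENNReal.ofReal_natCast, ← ENNReal.ofReal_mul (by positivity)]
    congr 1; push_cast; ring
  · refine Set.mem_biUnion (x := (h, h', k, j)) ?_ hm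
    simp only [J, Finset.mem_coe, Finset.mem_product, Finset.mem_Icc, ← abs_le]
    exact ⟨r1, r2, r3, r4⟩

lemma int_split {f : ℝ → ℂ} {p q B1 B2 η : ℝ} {E : Set ℝ} (hpq : p ≤ q) (hE : MeasurableSet E)
    (hv : volume E ≤ ENNReal.ofReal η) (hη : 0 ≤ η) (hB1 : 0 ≤ B1) (hB2 : 0 ≤ B2)
    (h1 : ∀ u ∈ Set.Icc p q, u ∉ E → ‖f u‖ ≤ B1) (h2 : ∀ u ∈ Set.Icc p q, ‖f u‖ ≤ B2) :
    ‖∫ u in p..q, f u‖ ≤ B1 * (q - p) + B2 * η := by
  have hfin : volume E ≠ ⊤ := ne_top_of_le_ne_top ENNReal.ofReal_ne_top hv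
  have hi : Integrable (E.indicator fun _ => B2) volume :=
    (integrable_indicator_iff hE).2 (integrableOn_const hfin)
  refine (intervalIntegral.norm_integral_le_of_norm_le hpq (g := fun u => B1 + E.indicator
    (fun _ => B2) u) (Filter.Eventually.of_forall fun u hu => ?_)
    (intervalIntegrable_const.add hi.intervalIntegrable)).trans ?_
  · have hu' := Set.Ioc_subset_Icc_self hu
    by_cases h : u ∈ E
    · rw [Set.indicator_of_mem h]; linarith [h2 u hu']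
    · rw [Set.indicator_of_notMem h]; linarith [h1 u hu' h]
  · rw [intervalIntegral.integral_add intervalIntegrable_const hi.intervalIntegrable,
      intervalIntegral.integral_const, smul_eq_mul, mul_comm, intervalIntegral.integral_of_le hpq]
    gcongr
    refine (setIntegral_le_integral hi (Filter.Eventually.of_forall fun u =>
      Set.indicator_nonneg (fun _ _ => hB2) u)).trans ?_
    rw [integral_indicator_const _ hE, smul_eq_mul, mul_comm]
    gcongr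
    exact ENNReal.toReal_le_of_le_ofReal hη hv

end Pool.Agent.MP_74e98a_nt.H83
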