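import Pool.Agent.MP_74e98a_nt.H83.Mob

/-! The decorrelation theorem. -/

set_option autoImplicit false
open Complex

namespace Pool.Agent.MP_74e98a_nt.H83

lemma Coef.zero {K L : ℝ} {α : ℤ → ℂ} (h : Coef K L α) (n : ℤ)
    (hn : n ∉ Finset.Icc ⌈K / L⌉ ⌊L * K⌋) : α n = 0 := by
  by_contra h0
  exact hn (Finset.mem_Icc.2 ⟨Int.ceil_le.2 (h.supp n h0).1, Int.le_floor.2 (h.supp n h0).2⟩)

lemma card_Icc_le {K L : ℝ} (hK : 0 < K) (hL : 0 < L) (H : ℕ) :
    ((Finset.Icc (⌈K / L⌉ - H) ⌊L * K⌋).card : ℝ) ≤ L * K + H := by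
  have h1 : 0 < ⌈K / L⌉ := Int.ceil_pos.2 (by positivity)
  have h2 : 0 ≤ ⌊L * K⌋ := Int.floor_nonneg.2 (by positivity)
  have h3 : ((Finset.Icc (⌈K / L⌉ - H) ⌊L * K⌋).card : ℤ) ≤ ⌊L * K⌋ + H := by
    rw [Int.card_Icc]; omega
  have h4 : ((Finset.Icc (⌈K / L⌉ - H) ⌊L * K⌋).card : ℝ) ≤ (⌊L * K⌋ : ℝ) + H := by
    exact_mod_cast h3
  linarith [Int.floor_le (L * K)]

lemma Th_eq_ex {K L : ℝ} {α : ℤ → ℂ} (h : Coef K L α) (x : ℝ) :
    Th α x = ∑ n ∈ Finset.Icc ⌈K / L⌉ ⌊L * K⌋, α n * ex (-(Real.pi * x * n ^ 2)) := by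
  rw [Th_eq_sum h.zero]; simp only [ex, Complex.ofReal_neg]

lemma norm_Th_le {K L : ℝ} {α : ℤ → ℂ} (hK : 0 < K) (hL : 0 < L) (h : Coef K L α) (x : ℝ) :
    ‖Th α x‖ ≤ L * K := by
  rw [Th_eq_ex h]
  refine (norm_sum_le _ _).trans ((Finset.sum_le_card_nsmul _ _ 1 fun n _ => ?_).trans ?_)
  · rw [norm_mul, norm_ex, mul_one]; exact h.bd n
  · simpa using card_Icc_le hK hL 0

lemma big_case {w K L lam p q : ℝ} {a1 a2 a3 a4 b1 b2 b3 b4 : ℤ} {α β : ℤ → ℂ} {c c' : ℝ → ℂ}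
    (hK : w ^ 400 = K) (hw : L ^ 30 ≤ w) (hL : 2 ≤ L) (hlam : |lam - 1| ≤ 1 / K) (hp : -L ≤ p)
    (hpq : p ≤ q) (hq : q ≤ L) (ha : Mob L p q a1 a2 a3 a4) (hb : Mob L p q b1 b2 b3 b4)
    (n1 : b1 * a2 ≠ b2 * a1 ∨ b3 * a4 ≠ b4 * a3) (n2 : b1 * a4 ≠ b2 * a3 ∨ b3 * a2 ≠ b4 * a1)
    (hα : Coef K L α) (hβ : Coef K L β)
    (hc : ∀ u ∈ Set.Icc p q, HasDerivAt c (c' u) u ∧ ‖c u‖ ≤ L ∧ ‖c' u‖ ≤ L) :
    ‖∫ u in p..q, c u * Th α (lam * ((a1 * u + a2) / (a3 * u + a4)) ^ 2) *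
        (starRingEnd ℂ) (Th β (lam * ((b1 * u + b2) / (b3 * u + b4)) ^ 2))‖ ≤
      L ^ 300 * (K / w) := by
  have hL0 : 0 < L := by linarith
  have hL1 : 1 ≤ L := by linarith
  set Λ := L ^ 30 with hΛ
  have hΛb : 10 ^ 9 ≤ Λ := le_trans (by norm_num) (pow_le_pow_left₀ (by norm_num) hL 30)
  have hΛ1 : 1 ≤ Λ := by linarith
  have hΛ3 : L ^ 3 ≤ Λ := pow_le_pow_right₀ hL1 (by norm_num)
  have hΛ2 : 2 * L ^ 2 ≤ Λ := by nlinarith [pow_pos hL0 2]
  have hΛL : 2 * L ≤ Λ := by nlinarith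
  have hw0 : 0 < w := by linarith
  have hw1 : 1 ≤ w := by linarith
  have pw : ∀ i j : ℕ, i ≤ j → w ^ i ≤ w ^ j := fun i j h => pow_le_pow_right₀ hw1 h
  have pw' : ∀ (x : ℝ) (i j : ℕ), x ≤ 10 ^ 9 → i < j → x * w ^ i ≤ w ^ j := fun x i j hx h =>
    (mul_le_mul_of_nonneg_right (by linarith) (by positivity)).trans
      ((pow_succ' w i).symm.trans_le (pw _ _ h))
  have hK0 : 0 < K := by rw [← hK]; positivity
  have hK2 : 2 ≤ K := by have := pw' 2 0 400 (by norm_num) (by norm_num); simp at this; linarith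
  have hP := ph_mob hL (hlam.trans (one_div_le_one_div_of_le (by norm_num) hK2)) hp hq ha hb
  set X : ℝ → ℝ := fun u => lam * ((a1 * u + a2) / (a3 * u + a4)) ^ 2 with hX
  set Y : ℝ → ℝ := fun u => lam * ((b1 * u + b2) / (b3 * u + b4)) ^ 2 with hY
  set l := lf a1 a2 a3 a4 b1 b2 b3 b4 with hl
  set S := Finset.Icc ⌈K / L⌉ ⌊L * K⌋ with hS
  set H := ⌈w ^ 4⌉₊ with hH
  have hH1 : w ^ 4 ≤ H := Nat.le_ceil _
  have hH2 : (H : ℝ) ≤ 2 * w ^ 4 := by
    linarith [Nat.ceil_lt_add_one (show 0 ≤ w ^ 4 by positivity), one_le_pow₀ (n := 4) hw1]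
  set N := 2 * Λ * K with hN
  have hNH : ((Finset.Icc (⌈K / L⌉ - H) ⌊L * K⌋).card : ℝ) + 1 ≤ N := by
    have h1 := card_Icc_le hK0 hL0 H
    have h2 := pw' 3 4 400 (by norm_num) (by norm_num)
    nlinarith [one_le_pow₀ (n := 4) hw1]
  have hNS : (S.card : ℝ) ≤ N := by
    have h1 := card_Icc_le hK0 hL0 0
    simp only [Nat.cast_zero, sub_zero, add_zero] at h1
    nlinarith
  have hSm : ∀ n ∈ S, K / Λ ≤ (n : ℝ) ∧ (n : ℝ) ≤ Λ * K := fun n hn => by
    have h1 := Int.ceil_le.1 (Finset.mem_Icc.1 hn).1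
    have h2 := Int.le_floor.1 (Finset.mem_Icc.1 hn).2
    exact ⟨le_trans (by gcongr; linarith) h1, h2.trans (by gcongr; linarith)⟩
  have hcΛ : ∀ u ∈ Set.Icc p q, HasDerivAt c (c' u) u ∧ ‖c u‖ ≤ Λ ∧ ‖c' u‖ ≤ Λ := fun u hu =>
    ⟨(hc u hu).1, by linarith [(hc u hu).2.1], by linarith [(hc u hu).2.2]⟩
  have hC1 := c1 hP hΛ1 hK0 hw1 hpq hSm hNS hα.bd hβ.bd hcΛ
  -- the exceptional set
  set R := ⌈4 * w ^ 6⌉₊ with hR
  have hR1 : 4 * w ^ 6 ≤ R := Nat.le_ceil _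
  have hR2 : 2 * (R : ℝ) + 1 ≤ 11 * w ^ 6 := by
    linarith [Nat.ceil_lt_add_one (show 0 ≤ 4 * w ^ 6 by positivity), one_le_pow₀ (n := 6) hw1]
  obtain ⟨E, hE1, hE2, hE3⟩ := badset ha.det hb.det n1 n2 R (δ := 1 / w ^ 30) (by positivity)
    ((div_le_one (by positivity)).2 (one_le_pow₀ hw1))
  have hη : (2 * (R : ℝ) + 1) ^ 4 * (12 * (1 / w ^ 30)) ≤ 1 / w ^ 5 := by
    calc _ ≤ (11 * w ^ 6) ^ 4 * (12 * (1 / w ^ 30)) := by gcongr
      _ = 175692 * w ^ 24 * (1 / w ^ 30) := by ring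
      _ ≤ w ^ 25 * (1 / w ^ 30) := by gcongr; exact pw' _ _ _ (by norm_num) (by norm_num)
      _ = _ := by field_simp
  have hN0 : 0 < N := by positivity
  have hgood : ∀ u ∈ Set.Icc p q, u ∉ E → ‖c u * gsum S α β w (X u) (Y u) (l u)‖ ≤
      Λ * (82 * N / w) := by
    intro u hu huE
    have hl0 : 0 ≤ l u := Real.sqrt_nonneg _
    have hg := gsum_good (X := X u) (Y := Y u) (ε := 1 / w ^ 200) (show 2 ≤ w by linarith) hH1
      (by positivity) (show 0 ≤ L / K by positivity) hNH hl0 (hP.l1 u hu) hα.bd hβ.bd hα.zero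
      hβ.zero hα.lip hβ.lip (by
        intro h h' k j hh h1 h2 h3
        by_contra h4
        obtain ⟨W, hW, hPP⟩ := PP_eq hL hp hq ha hb hu
        have s1 := (ha.sz hL hp hq hu).2.2.2
        have s2 := (hb.sz hL hp hq hu).2.2.2
        have t1 := pow_le_pow_left₀ (s1.pos hL).le (s1.2.trans_eq (pow_one L)) 2
        have t2 := pow_le_pow_left₀ (s2.pos hL).le (s2.2.trans_eq (pow_one L)) 2
        have h1' : |(h : ℝ)| ≤ 2 * w ^ 4 := by
          have : |(h : ℝ)| ≤ H := by exact_mod_cast h1.le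
          linarith
        obtain ⟨r1, r2, r3, r4, r5⟩ := small (show 100 ≤ w by linarith) (hK ▸ hlam) (sq_nonneg _)
          (by linarith) (sq_nonneg _) (by linarith) hl0 ((hP.l1 u hu).trans hw) (hW.pos hL).le
          ((hW.mono hL (show 22 ≤ 30 by norm_num)).2.trans hw) h1' h2 h3 (not_le.1 h4)
        have := hE3 u huE h h' k j hh (by exact_mod_cast r1.trans hR1)
          (by exact_mod_cast r2.trans hR1) (by exact_mod_cast r3.trans hR1)
          (by exact_mod_cast r4.trans hR1)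
        rw [hPP] at this
        exact absurd r5 (not_lt.2 this))
    have hδ : L / K ≤ w / w ^ 400 := by rw [hK]; gcongr; linarith
    have h1 : N * (20 * (L / K) * w ^ 2) ≤ N / w := by
      calc _ ≤ N * (20 * (w / w ^ 400) * w ^ 2) := by gcongr
        _ = N / w * (20 * w ^ 4 / w ^ 400) := by field_simp
        _ ≤ N / w * 1 := by
          gcongr; exact (div_le_one (by positivity)).2 (pw' _ _ _ (by norm_num) (by norm_num))
        _ = _ := mul_one _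
    have h2 : 13 * N * w ^ 3 * (L / K * (Λ + 2)) / (1 / w ^ 200) ≤ N / w := by
      calc _ ≤ 13 * N * w ^ 3 * (w / w ^ 400 * (3 * w)) / (1 / w ^ 200) := by gcongr; linarith
        _ = N / w * (39 * w ^ 206 / w ^ 400) := by field_simp; norm_num
        _ ≤ N / w * 1 := by
          gcongr; exact (div_le_one (by positivity)).2 (pw' _ _ _ (by norm_num) (by norm_num))
        _ = _ := mul_one _
    rw [norm_mul]
    refine mul_le_mul (hcΛ u hu).2.1 (hg.trans ?_) (norm_nonneg _) (by linarith)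
    have e1 : 82 * N / w = N / w + (80 * N / w + N / w) := by ring
    rw [e1]; gcongr
  have hC3 := int_split (f := fun u => c u * gsum S α β w (X u) (Y u) (l u))
    (B2 := Λ * (N * (10 * w))) hpq hE1 (hE2.trans (ENNReal.ofReal_le_ofReal hη)) (by positivity)
    (by positivity) (by positivity) hgood fun u hu => by
      rw [norm_mul]
      exact mul_le_mul (hcΛ u hu).2.1 (gsum_triv hw1 hNS hα.bd hβ.bd _ _ _) (norm_nonneg _)
        (by linarith)
  have hcc : ContinuousOn c (Set.Icc p q) := fun u hu => (hc u hu).1.continuousAt.continuousWithinAt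
  have hcl : ContinuousOn l (Set.Icc p q) := fun u hu => (hP.dl u hu).continuousAt.continuousWithinAt
  have hcX : ContinuousOn X (Set.Icc p q) := fun u hu => (hP.dX u hu).continuousAt.continuousWithinAt
  have hcY : ContinuousOn Y (Set.Icc p q) := fun u hu => (hP.dY u hu).continuousAt.continuousWithinAt
  have hO := continuous_Om
  have hEx := continuous_ex
  have e : ∀ u, c u * Th α (X u) * (starRingEnd ℂ) (Th β (Y u)) =
      (∑ n ∈ S, ∑ m ∈ S, α n * (starRingEnd ℂ) (β m) * (c u * (1 - Om ((m - l u * n) / w) : ℝ) *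
        ex (Real.pi * (Y u * m ^ 2 - X u * n ^ 2)))) + c u * gsum S α β w (X u) (Y u) (l u) := by
    intro u
    rw [Th_eq_ex hα, Th_eq_ex hβ, map_sum, mul_assoc, Finset.sum_mul_sum, gsum, Finset.mul_sum,
      Finset.mul_sum, ← Finset.sum_add_distrib]
    refine Finset.sum_congr rfl fun n _ => ?_
    rw [Finset.mul_sum, Finset.mul_sum, ← Finset.sum_add_distrib]
    refine Finset.sum_congr rfl fun m _ => ?_
    have e2 : ex (Real.pi * (Y u * m ^ 2 - X u * n ^ 2)) =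
        ex (-(Real.pi * X u * n ^ 2)) * ex (- -(Real.pi * Y u * m ^ 2)) := by
      rw [← ex_add]; congr 1; ring
    rw [map_mul, conj_ex, e2]; push_cast; ring
  show ‖∫ u in p..q, c u * Th α (X u) * (starRingEnd ℂ) (Th β (Y u))‖ ≤ _
  simp only [e]
  rw [intervalIntegral.integral_add (ContinuousOn.intervalIntegrable_of_Icc hpq (by fun_prop))
    (ContinuousOn.intervalIntegrable_of_Icc hpq (by unfold gsum; fun_prop))]
  refine (norm_add_le _ _).trans ((add_le_add hC1 hC3).trans ?_)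
  have hqp : q - p ≤ Λ := by linarith
  have pΛ : ∀ i : ℕ, i ≤ 9 → Λ ^ i ≤ Λ ^ 9 := fun i h => pow_le_pow_right₀ hΛ1 h
  have hw3 : 1 / w ^ 3 ≤ 1 := (div_le_one (by positivity)).2 (one_le_pow₀ hw1)
  calc _ ≤ 2 * (N ^ 2 * Λ ^ 3 / (w * K)) + (3 * N ^ 2 * Λ ^ 6 / (w * K) + 60 * N * Λ ^ 5 / w) * Λ +
        (Λ * (82 * N / w) * Λ + Λ * (N * (10 * w)) * (1 / w ^ 5)) := by gcongr
    _ = (8 * Λ ^ 5 + 12 * Λ ^ 9 + 120 * Λ ^ 7 + 164 * Λ ^ 3 + 20 * Λ ^ 2 * (1 / w ^ 3)) * (K / w) := by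
        rw [hN]; field_simp; ring
    _ ≤ (8 * Λ ^ 9 + 12 * Λ ^ 9 + 120 * Λ ^ 9 + 164 * Λ ^ 9 + 20 * Λ ^ 9 * 1) * (K / w) := by
        gcongr <;> norm_num
    _ = 324 * Λ ^ 9 * (K / w) := by ring
    _ ≤ Λ * Λ ^ 9 * (K / w) := by gcongr; linarith
    _ = _ := by rw [hΛ]; ring

theorem decorr : DecorrStmt := by
  refine ⟨24005, 1 / 400, by norm_num, by norm_num, ?_⟩
  intro K L lam p q a1 a2 a3 a4 b1 b2 b3 b4 α β c c' hK hL hlam hp hpq hq ha hb n1 n2 hα hβ hc _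
  have hK0 : 0 < K := by linarith
  have hL0 : 0 < L := by linarith
  have hL1 : 1 ≤ L := by linarith
  set w := K ^ (1 / 400 : ℝ) with hw
  have hKw : w ^ 400 = K := by
    rw [hw, ← Real.rpow_natCast, ← Real.rpow_mul hK0.le]; norm_num
  have e1 : L ^ (24005 : ℝ) = L ^ (24005 : ℕ) := by exact_mod_cast Real.rpow_natCast L 24005
  rw [e1]
  rcases le_total (L ^ 30) w with h | h
  · refine (big_case hKw h hL hlam hp hpq hq ha hb n1 n2 hα hβ hc).trans ?_
    rw [Real.rpow_sub hK0, Real.rpow_one]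
    exact mul_le_mul_of_nonneg_right (pow_le_pow_right₀ hL1 (by norm_num)) (by positivity)
  · have h1 : K ≤ L ^ 12000 := by
      rw [← hKw, show 12000 = 30 * 400 by norm_num, pow_mul]
      exact pow_le_pow_left₀ (by positivity) h 400
    have h2 : 1 ≤ K ^ (1 - 1 / 400 : ℝ) := Real.one_le_rpow (by linarith) (by norm_num)
    refine (intervalIntegral.norm_integral_le_of_norm_le_const (C := L * (L * K) * (L * K))
      fun u hu => ?_).trans ?_
    · rw [Set.uIoc_of_le hpq] at hu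
      rw [norm_mul, norm_mul, Complex.norm_conj]
      have := (hc u (Set.Ioc_subset_Icc_self hu)).2.1
      have := norm_Th_le hK0 hL0 hα (lam * ((a1 * u + a2) / (a3 * u + a4)) ^ 2)
      have := norm_Th_le hK0 hL0 hβ (lam * ((b1 * u + b2) / (b3 * u + b4)) ^ 2)
      gcongr
    · rw [abs_of_nonneg (by linarith)]
      have h3 : q - p ≤ L * L := by nlinarith
      generalize hM : L ^ 12000 = M at h1
      have hM0 : 0 < M := by linarith
      have e2 : L ^ 24005 = L * (L * M) * (L * M) * (L * L) * 1 := by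
        rw [← hM, show 24005 = 12000 + 12000 + 5 by norm_num, pow_add, pow_add]
        generalize L ^ 12000 = M; ring
      calc _ ≤ L * (L * M) * (L * M) * (L * L) := by gcongr
        _ = L ^ 24005 * 1 := by rw [e2]; ring
        _ ≤ _ := by gcongr

end Pool.Agent.MP_74e98a_nt.H83
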