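import Pool.Agent.MP_74e98a_nt.H83.C3

/-! Size bounds for the phases attached to two Moebius maps. -/

set_option autoImplicit false

namespace Pool.Agent.MP_74e98a_nt.H83

/-- `x` lies between `L ^ (-k)` and `L ^ k`. -/
def Sz (L : ℝ) (k : ℕ) (x : ℝ) : Prop := 1 / L ^ k ≤ x ∧ x ≤ L ^ k

section
variable {L x y : ℝ} {i j : ℕ}

lemma Sz.pos (hL : 2 ≤ L) (h : Sz L i x) : 0 < x := lt_of_lt_of_le (by positivity) h.1

lemma Sz.mul (hL : 2 ≤ L) (h : Sz L i x) (h' : Sz L j y) : Sz L (i + j) (x * y) := by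
  have := h.pos hL; have := h'.pos hL
  refine ⟨?_, ?_⟩
  · rw [pow_add, ← one_div_mul_one_div]; exact mul_le_mul h.1 h'.1 (by positivity) (by positivity)
  · rw [pow_add]; exact mul_le_mul h.2 h'.2 (by positivity) (by positivity)

lemma Sz.div (hL : 2 ≤ L) (h : Sz L i x) (h' : Sz L j y) : Sz L (i + j) (x / y) := by
  have h0 := h'.pos hL
  rw [div_eq_mul_one_div]
  exact h.mul hL ⟨one_div_le_one_div_of_le h0 h'.2, (one_div_le h0 (by positivity)).2 h'.1⟩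

lemma Sz.cube (hL : 2 ≤ L) (h : Sz L i x) : Sz L (i + i + i) (x ^ 3) := by
  rw [show x ^ 3 = x * x * x by ring]; exact (h.mul hL h).mul hL h

lemma Sz.mono (hL : 2 ≤ L) (h : Sz L i x) (hij : i ≤ j) : Sz L j x := by
  have h1 : L ^ i ≤ L ^ j := pow_le_pow_right₀ (by linarith) hij
  exact ⟨(one_div_le_one_div_of_le (by positivity) h1).trans h.1, h.2.trans h1⟩

lemma Sz.sqrt (hL : 2 ≤ L) (h : Sz L (i + i) x) : Sz L i √x := by
  refine ⟨Real.le_sqrt_of_sq_le ?_, Real.sqrt_le_iff.2 ⟨by positivity, ?_⟩⟩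
  · rw [div_pow, one_pow, sq, ← pow_add]; exact h.1
  · rw [sq, ← pow_add]; exact h.2

end

/-- The logarithmic derivative of `f` at `u` is at most `B`. -/
def LB (f : ℝ → ℝ) (B u : ℝ) : Prop := ∃ s, HasDerivAt f (f u * s) u ∧ |s| ≤ B

section
variable {f g : ℝ → ℝ} {A B u : ℝ}

lemma LB.mul (h : LB f A u) (h' : LB g B u) : LB (fun u => f u * g u) (A + B) u := by
  obtain ⟨s, h1, h2⟩ := h; obtain ⟨t, h3, h4⟩ := h'
  exact ⟨s + t, (h1.fun_mul h3).congr_deriv (by ring), (abs_add_le _ _).trans (add_le_add h2 h4)⟩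

lemma LB.div (h : LB f A u) (h' : LB g B u) (h0 : g u ≠ 0) :
    LB (fun u => f u / g u) (A + B) u := by
  obtain ⟨s, h1, h2⟩ := h; obtain ⟨t, h3, h4⟩ := h'
  exact ⟨s - t, (h1.fun_div h3 h0).congr_deriv (by field_simp),
    (abs_sub _ _).trans (add_le_add h2 h4)⟩

lemma LB.const (c u : ℝ) : LB (fun _ => c) 0 u := ⟨0, by simpa using hasDerivAt_const u c, by simp⟩

lemma LB.cube (h : LB f A u) : LB (fun u => f u ^ 3) (3 * A) u := by
  obtain ⟨s, h1, h2⟩ := h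
  exact ⟨3 * s, (h1.fun_pow 3).congr_deriv (by simp; ring), by rw [abs_mul]; norm_num; exact h2⟩

lemma LB.sqrt (h : LB f A u) (h0 : 0 < f u) : LB (fun u => √(f u)) A u := by
  obtain ⟨s, h1, h2⟩ := h
  refine ⟨s / 2, (h1.sqrt h0.ne').congr_deriv ?_, ?_⟩
  · have := Real.sqrt_pos.2 h0
    field_simp; rw [Real.sq_sqrt h0.le, mul_comm]
  · rw [abs_div, abs_two]; linarith [abs_nonneg s]

lemma LB.lin {L a b : ℝ} (hL : 2 ≤ L) (ha : |a| ≤ L) (h : Sz L 4 (a * u + b)) :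
    LB (fun u => a * u + b) (L ^ 5) u := by
  have h0 := h.pos hL
  refine ⟨a / (a * u + b), (((hasDerivAt_id u).const_mul a).add_const b).congr_deriv
    (by field_simp), ?_⟩
  rw [abs_div, abs_of_pos h0, div_eq_mul_one_div, show L ^ 5 = L * L ^ 4 by ring]
  exact mul_le_mul ha ((one_div_le h0 (by positivity)).2 h.1) (by positivity) (by linarith)

lemma LB.bound {L : ℝ} {k : ℕ} (hL : 2 ≤ L) (h : LB f A u) (hA : A ≤ 8 * L ^ 5) (hk : k ≤ 22)
    (hf : Sz L k (f u)) : HasDerivAt f (deriv f u) u ∧ |deriv f u| ≤ L ^ 30 := by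
  obtain ⟨s, h1, h2⟩ := h
  refine ⟨h1.differentiableAt.hasDerivAt, ?_⟩
  have h3 : (8 : ℝ) ≤ L ^ 3 := by linarith [pow_le_pow_left₀ (by norm_num) hL 3]
  rw [h1.deriv, abs_mul, abs_of_pos (hf.pos hL)]
  calc _ ≤ L ^ 22 * (L ^ 3 * L ^ 5) :=
        mul_le_mul (hf.mono hL hk).2 (h2.trans (hA.trans (by gcongr))) (abs_nonneg _) (by positivity)
    _ = _ := by ring

end

lemma Mob.sz {L p q u : ℝ} {a1 a2 a3 a4 : ℤ} (h : Mob L p q a1 a2 a3 a4) (hL : 2 ≤ L)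
    (hp : -L ≤ p) (hq : q ≤ L) (hu : u ∈ Set.Icc p q) :
    Sz L 4 (a1 * u + a2) ∧ Sz L 3 (a3 * u + a4) ∧ Sz L 3 (a1 * a4 - a2 * a3) ∧
      Sz L 1 ((a1 * u + a2) / (a3 * u + a4)) := by
  have hu' : |u| ≤ L := abs_le.2 ⟨hp.trans hu.1, hu.2.trans hq⟩
  have h3 : L * L + L * L ≤ L ^ 3 := by nlinarith [mul_pos (show 0 < L by linarith) (show 0 < L by linarith)]
  have hm : ∀ x y : ℝ, |x| ≤ L → |y| ≤ L → |x * y| ≤ L * L := fun x y hx hy => by
    rw [abs_mul]; exact mul_le_mul hx hy (abs_nonneg _) (by linarith)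
  have s2 : Sz L 3 (a3 * u + a4) := by
    refine ⟨le_trans ?_ (h.den u hu), ?_⟩
    · exact one_div_le_one_div_of_le (by linarith) (le_self_pow₀ (by linarith) (by norm_num))
    · nlinarith [abs_le.1 (hm _ _ h.b3 hu'), abs_le.1 h.b4]
  have s4 : Sz L 1 ((a1 * u + a2) / (a3 * u + a4)) := by
    refine ⟨?_, ?_⟩ <;> rw [pow_one]
    exacts [h.lo u hu, h.hi u hu]
  refine ⟨?_, s2, ⟨?_, ?_⟩, s4⟩
  · have := s4.mul hL s2
    rwa [div_mul_cancel₀ _ (s2.pos hL).ne'] at this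
  · have : (1 : ℝ) ≤ a1 * a4 - a2 * a3 := by exact_mod_cast h.det
    exact le_trans ((div_le_one (by positivity)).2 (one_le_pow₀ (by linarith))) this
  · linarith [abs_le.1 (hm _ _ h.b1 h.b4), abs_le.1 (hm _ _ h.b2 h.b3)]

/-- The slope of the stationary strip. -/
noncomputable def lf (a1 a2 a3 a4 b1 b2 b3 b4 : ℤ) (u : ℝ) : ℝ :=
  √((a1 * a4 - a2 * a3) * (a1 * u + a2) * (b3 * u + b4) ^ 3 /
    ((b1 * b4 - b2 * b3) * (b1 * u + b2) * (a3 * u + a4) ^ 3))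

/-- The derivative of the phase. -/
noncomputable def rf (lam : ℝ) (b1 b2 b3 b4 : ℤ) (u : ℝ) : ℝ :=
  2 * lam * (b1 * b4 - b2 * b3) * (b1 * u + b2) / (b3 * u + b4) ^ 3

lemma hasDerivAt_phase (lam : ℝ) (b1 b2 b3 b4 : ℤ) {u : ℝ} (h : (b3 : ℝ) * u + b4 ≠ 0) :
    HasDerivAt (fun u : ℝ => lam * ((b1 * u + b2) / (b3 * u + b4)) ^ 2) (rf lam b1 b2 b3 b4 u) u := by
  have h1 := ((((((hasDerivAt_id u).const_mul (b1 : ℝ)).add_const (b2 : ℝ)).fun_div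
    (((hasDerivAt_id u).const_mul (b3 : ℝ)).add_const (b4 : ℝ)) h).fun_pow 2).const_mul lam)
  refine h1.congr_deriv ?_
  simp only [id, rf, Nat.add_one_sub_one, pow_one, Nat.cast_ofNat]
  generalize hy : (b3 : ℝ) * u + b4 = y at h
  have : (b4 : ℝ) = y - b3 * u := by linarith
  rw [this]; field_simp; ring

lemma ph_mob {L lam p q : ℝ} {a1 a2 a3 a4 b1 b2 b3 b4 : ℤ} (hL : 2 ≤ L) (hlam : |lam - 1| ≤ 1 / 2)
    (hp : -L ≤ p) (hq : q ≤ L) (ha : Mob L p q a1 a2 a3 a4) (hb : Mob L p q b1 b2 b3 b4) :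
    Ph (L ^ 30) p q (fun u => lam * ((a1 * u + a2) / (a3 * u + a4)) ^ 2)
      (fun u => lam * ((b1 * u + b2) / (b3 * u + b4)) ^ 2) (lf a1 a2 a3 a4 b1 b2 b3 b4)
      (rf lam b1 b2 b3 b4) (deriv (lf a1 a2 a3 a4 b1 b2 b3 b4)) (deriv (rf lam b1 b2 b3 b4)) := by
  have h2 : Sz L 2 (2 * lam) := by
    have := abs_le.1 hlam
    exact ⟨le_trans ((div_le_one (by positivity)).2 (one_le_pow₀ (by linarith))) (by linarith),
      by nlinarith⟩
  have key : ∀ u ∈ Set.Icc p q, (Sz L 16 (lf a1 a2 a3 a4 b1 b2 b3 b4 u) ∧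
      Sz L 18 (rf lam b1 b2 b3 b4 u)) ∧
      (HasDerivAt (lf a1 a2 a3 a4 b1 b2 b3 b4) (deriv (lf a1 a2 a3 a4 b1 b2 b3 b4) u) u ∧
        |deriv (lf a1 a2 a3 a4 b1 b2 b3 b4) u| ≤ L ^ 30) ∧
      (HasDerivAt (rf lam b1 b2 b3 b4) (deriv (rf lam b1 b2 b3 b4) u) u ∧
        |deriv (rf lam b1 b2 b3 b4) u| ≤ L ^ 30) ∧
      rf lam a1 a2 a3 a4 u = rf lam b1 b2 b3 b4 u * lf a1 a2 a3 a4 b1 b2 b3 b4 u ^ 2 := by
    intro u hu
    obtain ⟨m1, m2, d, -⟩ := ha.sz hL hp hq hu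
    obtain ⟨n1, n2, d', -⟩ := hb.sz hL hp hq hu
    have z0 := (d'.mul hL n1).mul hL (m2.cube hL)
    have z := ((d.mul hL m1).mul hL (n2.cube hL)).div hL z0
    have sl : Sz L 16 (lf a1 a2 a3 a4 b1 b2 b3 b4 u) := Sz.sqrt hL z
    have sr : Sz L 18 (rf lam b1 b2 b3 b4 u) := ((h2.mul hL d').mul hL n1).div hL (n2.cube hL)
    have l1 := LB.lin hL ha.b1 m1
    have l2 := LB.lin hL ha.b3 (m2.mono hL (by norm_num))
    have l3 := LB.lin hL hb.b1 n1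
    have l4 := LB.lin hL hb.b3 (n2.mono hL (by norm_num))
    have hl := ((((LB.const ((a1 : ℝ) * a4 - a2 * a3) u).mul l1).mul l4.cube).div
      (((LB.const ((b1 : ℝ) * b4 - b2 * b3) u).mul l3).mul l2.cube) (z0.pos hL).ne').sqrt (z.pos hL)
    have hr := ((LB.const (2 * lam * ((b1 : ℝ) * b4 - b2 * b3)) u).mul l3).div l4.cube
      ((n2.cube hL).pos hL).ne'
    have h5 : 0 < L ^ 5 := by positivity
    refine ⟨⟨sl, sr⟩, LB.bound hL hl (by linarith) (by norm_num) sl,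
      LB.bound hL hr (by linarith) (by norm_num) sr, ?_⟩
    unfold lf rf
    rw [Real.sq_sqrt (z.pos hL).le]
    have := d'.pos hL; have := n1.pos hL; have := n2.pos hL; have := m2.pos hL
    generalize (b1 : ℝ) * b4 - b2 * b3 = D' at *
    generalize (b1 : ℝ) * u + b2 = N1 at *
    generalize (b3 : ℝ) * u + b4 = N2 at *
    generalize (a3 : ℝ) * u + a4 = M2 at *
    field_simp
  exact ⟨fun u hu => (key u hu).2.2.2 ▸ hasDerivAt_phase lam _ _ _ _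
      ((ha.sz hL hp hq hu).2.1.pos hL).ne',
    fun u hu => hasDerivAt_phase lam _ _ _ _ ((hb.sz hL hp hq hu).2.1.pos hL).ne',
    fun u hu => (key u hu).2.1.1, fun u hu => (key u hu).2.2.1.1,
    fun u hu => ((key u hu).1.1.mono hL (by norm_num)).1,
    fun u hu => ((key u hu).1.1.mono hL (by norm_num)).2,
    fun u hu => ((key u hu).1.2.mono hL (by norm_num)).1,
    fun u hu => (key u hu).2.1.2, fun u hu => (key u hu).2.2.1.2⟩

lemma PP_eq {L p q u : ℝ} {a1 a2 a3 a4 b1 b2 b3 b4 : ℤ} (hL : 2 ≤ L) (hp : -L ≤ p) (hq : q ≤ L)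
    (ha : Mob L p q a1 a2 a3 a4) (hb : Mob L p q b1 b2 b3 b4) (hu : u ∈ Set.Icc p q) :
    ∃ W, Sz L 22 W ∧ ∀ h h' k j : ℤ, PP a1 a2 a3 a4 b1 b2 b3 b4 h h' k j u =
      W * ((h * ((a1 * u + a2) / (a3 * u + a4)) ^ 2 + j) ^ 2 - lf a1 a2 a3 a4 b1 b2 b3 b4 u ^ 2 *
        (h' * ((b1 * u + b2) / (b3 * u + b4)) ^ 2 - k) ^ 2) := by
  obtain ⟨m1, m2, d, -⟩ := ha.sz hL hp hq hu
  obtain ⟨n1, n2, d', -⟩ := hb.sz hL hp hq hu
  have z := ((d.mul hL m1).mul hL (n2.cube hL)).div hL ((d'.mul hL n1).mul hL (m2.cube hL))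
  refine ⟨_, ((d'.mul hL n1).mul hL n2).mul hL (m2.mul hL (m2.cube hL)), fun h h' k j => ?_⟩
  unfold lf PP
  rw [Real.sq_sqrt (z.pos hL).le]
  have := d'.pos hL; have := n1.pos hL; have := n2.pos hL; have := m2.pos hL
  generalize (b1 : ℝ) * b4 - b2 * b3 = D' at *
  generalize (a1 : ℝ) * a4 - a2 * a3 = D at *
  generalize (b1 : ℝ) * u + b2 = N1 at *
  generalize (b3 : ℝ) * u + b4 = N2 at *
  generalize (a1 : ℝ) * u + a2 = M1 at *
  generalize (a3 : ℝ) * u + a4 = M2 at *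
  field_simp

/-- A close rational approximation forces the polynomial to be small. -/
lemma small {w lam g g' l W h h' k j : ℝ} (hw : 100 ≤ w) (hlam : |lam - 1| ≤ 1 / w ^ 400)
    (g0 : 0 ≤ g) (g1 : 2 * g ≤ w) (g0' : 0 ≤ g') (g1' : 2 * g' ≤ w) (l0 : 0 ≤ l) (l1 : l ≤ w)
    (W0 : 0 ≤ W) (W1 : W ≤ w) (hh : |h| ≤ 2 * w ^ 4) (hh' : |h' - l * h| ≤ 1)
    (hk : |k - lam * g' * h'| ≤ 1) (hj : |-(lam * g * h) + l * (lam * g' * h' - k) - j| < 1 / w ^ 200) :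
    |h| ≤ 4 * w ^ 6 ∧ |h'| ≤ 4 * w ^ 6 ∧ |k| ≤ 4 * w ^ 6 ∧ |j| ≤ 4 * w ^ 6 ∧
      |W * ((h * g + j) ^ 2 - l ^ 2 * (h' * g' - k) ^ 2)| < (1 / w ^ 30) ^ 6 := by
  have hw0 : 0 < w := by linarith
  have hw1 : 1 ≤ w := by linarith
  have pw : ∀ i j : ℕ, i ≤ j → w ^ i ≤ w ^ j := fun i j h => pow_le_pow_right₀ hw1 h
  have iw : ∀ i : ℕ, 1 / w ^ i ≤ 1 := fun i => (div_le_one (by positivity)).2 (one_le_pow₀ hw1)
  have hl2 : |lam| ≤ 2 := by linarith [abs_sub_abs_le_abs_sub lam 1, iw 400, abs_one (α := ℝ)]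
  have p0 := pw 0 5 (by norm_num)
  have p1 := pw 1 5 (by norm_num)
  have p4 := pw 4 5 (by norm_num)
  have p5 := pw 5 6 (by norm_num)
  rw [pow_zero] at p0; rw [pow_one] at p1
  have e1 : |h'| ≤ 3 * w ^ 5 := by
    have : |l * h| ≤ w * (2 * w ^ 4) := by rw [abs_mul, abs_of_nonneg l0]; gcongr
    linarith [abs_sub_abs_le_abs_sub h' (l * h), show w * (2 * w ^ 4) = 2 * w ^ 5 by ring]
  have eg : |lam * g| ≤ w := by rw [abs_mul, abs_of_nonneg g0]; nlinarith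
  have eg' : |lam * g'| ≤ w := by rw [abs_mul, abs_of_nonneg g0']; nlinarith
  have e2 : |k| ≤ 4 * w ^ 6 := by
    have : |lam * g' * h'| ≤ w * (3 * w ^ 5) := by rw [abs_mul]; gcongr
    linarith [abs_sub_abs_le_abs_sub k (lam * g' * h'), show w * (3 * w ^ 5) = 3 * w ^ 6 by ring]
  have e3 : |j| ≤ 4 * w ^ 6 := by
    have t1 : |lam * g * h| ≤ w * (2 * w ^ 4) := by rw [abs_mul]; gcongr
    have t2 : |l * (lam * g' * h' - k)| ≤ w * 1 := by
      rw [abs_mul, abs_of_nonneg l0, abs_sub_comm]; gcongr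
    have t3 := abs_le.1 hj.le
    have t4 := abs_le.1 t1
    have t5 := abs_le.1 t2
    have t6 : w * (2 * w ^ 4) = 2 * w ^ 5 := by ring
    rw [abs_le]; constructor <;> linarith [iw 200]
  refine ⟨by linarith, by linarith, e2, e3, ?_⟩
  have e4 : |h * g + j - l * (h' * g' - k)| ≤ 2 * (1 / w ^ 200) := by
    have e : h * g + j - l * (h' * g' - k) = -(-(lam * g * h) + l * (lam * g' * h' - k) - j) -
        (lam - 1) * (g * h) + (lam - 1) * (l * (g' * h')) := by ring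
    have t1 : |(lam - 1) * (g * h)| ≤ 1 / w ^ 400 * (w * (2 * w ^ 4)) := by
      rw [abs_mul, abs_mul, abs_of_nonneg g0]; gcongr; linarith
    have t2 : |(lam - 1) * (l * (g' * h'))| ≤ 1 / w ^ 400 * (w * (w * (3 * w ^ 5))) := by
      rw [abs_mul, abs_mul, abs_mul, abs_of_nonneg g0', abs_of_nonneg l0]; gcongr; linarith
    have t3 : 1 / w ^ 400 * (w * (2 * w ^ 4)) + 1 / w ^ 400 * (w * (w * (3 * w ^ 5))) ≤
        1 / w ^ 200 := by
      rw [← mul_add, show 1 / w ^ 200 = 1 / w ^ 400 * w ^ 200 by field_simp]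
      gcongr
      have := pw 5 7 (by norm_num); have := pw 8 200 (by norm_num)
      nlinarith [show w * (2 * w ^ 4) + w * (w * (3 * w ^ 5)) = 2 * w ^ 5 + 3 * w ^ 7 by ring,
        show w ^ 8 = w * w ^ 7 by ring, pow_pos hw0 7]
    rw [e]
    refine (abs_add_le _ _).trans ((add_le_add ((abs_sub _ _).trans
      (add_le_add ((abs_neg _).trans_le hj.le) t1)) t2).trans (by linarith))
  have e5 : |h * g + j + l * (h' * g' - k)| ≤ 14 * w ^ 6 := by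
    have t1 : |h * g| ≤ 2 * w ^ 4 * w := by rw [abs_mul, abs_of_nonneg g0]; gcongr; linarith
    have t2 := abs_le.1 t1
    have t3 := abs_le.1 e3
    have t4 := abs_le.1 e4
    have t6 : 2 * w ^ 4 * w = 2 * w ^ 5 := by ring
    rw [abs_le]; constructor <;> linarith [iw 200]
  rw [show (h * g + j) ^ 2 - l ^ 2 * (h' * g' - k) ^ 2 = (h * g + j - l * (h' * g' - k)) *
    (h * g + j + l * (h' * g' - k)) by ring, abs_mul, abs_mul, abs_of_nonneg W0]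
  calc _ ≤ w * (2 * (1 / w ^ 200) * (14 * w ^ 6)) := by gcongr
    _ = 1 / w ^ 200 * (28 * w ^ 7) := by ring
    _ < 1 / w ^ 200 * w ^ 20 := by
        gcongr
        have := pw 8 20 (by norm_num)
        nlinarith [show w ^ 8 = w * w ^ 7 by ring, pow_pos hw0 7]
    _ = _ := by field_simp

end Pool.Agent.MP_74e98a_nt.H83
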