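import Pool.Agent.MP_74e98a_nt.H83.Basic

/-! One van der Corput step for a two-dimensional theta sum cut to a strip. -/

set_option autoImplicit false
open Complex

namespace Pool.Agent.MP_74e98a_nt.H83

lemma gauss_dom {w : ℝ} (hw : 1 ≤ w) (t : ℝ) (φ : ℤ → ℝ) :
    Summable (fun m : ℤ => (Om ((m - t) / w) : ℂ) * ex (φ m)) ∧
      ‖∑' m : ℤ, (Om ((m - t) / w) : ℂ) * ex (φ m)‖ ≤ 10 * w := by
  have := dom hw zero_le_one t (f := fun m : ℤ => (Om ((m - t) / w) : ℂ) * ex (φ m)) fun m => by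
    rw [norm_mul, norm_ex, mul_one, one_mul, Complex.norm_real, Real.norm_eq_abs,
      abs_of_pos (Om_pos _)]
    exact Om_le _
  rwa [one_mul] at this

lemma corr_triv {B : ℤ → ℂ} {S : Finset ℤ} {w N : ℝ} (hw : 1 ≤ w) (hN : (S.card : ℝ) ≤ N)
    (hB : ∀ n, ‖B n‖ ≤ 1) (ψ t : ℤ → ℝ) (φ : ℤ → ℝ) :
    ‖∑ n ∈ S, B n * ex (ψ n) * ∑' m : ℤ, (Om ((m - t n) / w) : ℂ) * ex (φ m)‖ ≤ N * (10 * w) := by
  refine (norm_sum_le _ _).trans ((Finset.sum_le_card_nsmul _ _ (10 * w) fun n _ => ?_).trans ?_)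
  · rw [norm_mul, norm_mul, norm_ex, mul_one]
    exact (mul_le_mul (hB n) (gauss_dom hw _ _).2 (norm_nonneg _) zero_le_one).trans_eq (one_mul _)
  · rw [nsmul_eq_mul]; gcongr

lemma Om_mul_le {w : ℝ} (hw : 1 ≤ w) (y : ℝ) : Om (w * y) ≤ Om y := by
  unfold Om; apply Real.exp_le_exp.2
  have h : y ^ 2 ≤ (w * y) ^ 2 := by
    rw [mul_pow]; exact le_mul_of_one_le_left (sq_nonneg y) (one_le_pow₀ hw)
  have := Real.pi_pos; nlinarith

lemma Om_mul_le' {w y : ℝ} (hw : 2 ≤ w) (hy : 1 ≤ |y|) :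
    Om (w * y) ≤ Real.exp (-w ^ 2) * Om y := by
  unfold Om; rw [← Real.exp_add]; apply Real.exp_le_exp.2
  have h1 : 1 ≤ y ^ 2 := by rw [← sq_abs]; nlinarith
  have h2 : 4 ≤ w ^ 2 := by nlinarith
  have h3 : (w ^ 2 - 1) * 1 ≤ (w ^ 2 - 1) * y ^ 2 := by gcongr; linarith
  have h4 : 3 * (w ^ 2 - 1) ≤ Real.pi * ((w ^ 2 - 1) * y ^ 2) :=
    mul_le_mul Real.pi_gt_three.le (by linarith) (by linarith) Real.pi_pos.le
  nlinarith

lemma corr_good {B : ℤ → ℂ} {a b : ℤ} {w N δ ε ξ1 ξ2 l s : ℝ} (hw : 2 ≤ w) (hε : 0 < ε)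
    (hδ : 0 ≤ δ) (hN : ((Finset.Icc a b).card : ℝ) + 1 ≤ N) (hB : ∀ n, ‖B n‖ ≤ 1)
    (hS : ∀ n, n ∉ Finset.Icc a b → B n = 0) (hl : ∀ n, ‖B (n + 1) - B n‖ ≤ δ)
    (h : ∀ k j : ℤ, |k - ξ2| ≤ 1 → ε ≤ |ξ1 + l * (ξ2 - k) - j|) :
    ‖∑ n ∈ Finset.Icc a b, B n * ex (2 * Real.pi * ξ1 * n) *
        ∑' m : ℤ, (Om ((m - (l * n - s)) / w) : ℂ) * ex (2 * Real.pi * ξ2 * m)‖ ≤
      10 * w * (N * δ / (4 * ε) + N * Real.exp (-w ^ 2)) := by
  have hw0 : 0 < w := by linarith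
  have hN0 : 0 ≤ N := le_trans (by positivity) hN
  have hsum : ∀ n : ℤ, Summable fun k : ℤ => B n * ex (2 * Real.pi * ξ1 * n) *
      (((w * Om (w * (k - ξ2)) : ℝ) : ℂ) * ex (2 * Real.pi * (ξ2 - k) * (l * n - s))) := by
    intro n
    refine Summable.mul_left _ (dom le_rfl hw0.le ξ2 fun k => ?_).1
    rw [norm_mul, norm_ex, mul_one, div_one, Complex.norm_real, Real.norm_eq_abs,
      abs_of_pos (mul_pos hw0 (Om_pos _))]
    exact mul_le_mul_of_nonneg_left ((Om_mul_le (by linarith) _).trans (Om_le _)) hw0.le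
  simp_rw [poisson hw0, ← tsum_mul_left]
  rw [← Summable.tsum_finsetSum fun n _ => hsum n]
  have hT : 0 ≤ N * δ / (4 * ε) := by positivity
  have hE : 0 ≤ N * Real.exp (-w ^ 2) := by positivity
  refine (dom le_rfl (B := w * (N * δ / (4 * ε) + N * Real.exp (-w ^ 2))) (by positivity) ξ2
    fun k => ?_).2.trans_eq (by ring)
  have e : ∑ n ∈ Finset.Icc a b, B n * ex (2 * Real.pi * ξ1 * n) *
      (((w * Om (w * (k - ξ2)) : ℝ) : ℂ) * ex (2 * Real.pi * (ξ2 - k) * (l * n - s))) =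
      ((w * Om (w * (k - ξ2)) : ℝ) : ℂ) * ex (-(2 * Real.pi * (ξ2 - k) * s)) *
        ∑ n ∈ Finset.Icc a b, B n * ex (2 * Real.pi * (ξ1 + l * (ξ2 - k)) * n) := by
    rw [Finset.mul_sum]
    refine Finset.sum_congr rfl fun n _ => ?_
    have : ex (2 * Real.pi * ξ1 * n) * ex (2 * Real.pi * (ξ2 - k) * (l * n - s)) =
        ex (-(2 * Real.pi * (ξ2 - k) * s)) * ex (2 * Real.pi * (ξ1 + l * (ξ2 - k)) * n) := by
      rw [← ex_add, ← ex_add]; congr 1; ring
    linear_combination (B n * ((w * Om (w * (k - ξ2)) : ℝ) : ℂ)) * this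
  rw [e, norm_mul, norm_mul, norm_ex, mul_one, div_one, Complex.norm_real, Real.norm_eq_abs,
    abs_of_pos (mul_pos hw0 (Om_pos _)), mul_assoc w, mul_assoc w]
  refine mul_le_mul_of_nonneg_left ?_ hw0.le
  have hO := Om_le (k - ξ2)
  have hO' := (Om_pos (k - ξ2)).le
  rcases le_total |(k : ℝ) - ξ2| 1 with hk | hk
  · have h1 := abel hε hδ hN hS hl (fun j => h k j hk)
    calc _ ≤ (1 / (1 + ((k : ℝ) - ξ2) ^ 2)) * (N * δ / (4 * ε)) :=
          mul_le_mul ((Om_mul_le (by linarith) _).trans hO) h1 (norm_nonneg _) (by positivity)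
      _ ≤ _ := by rw [mul_comm]; gcongr; linarith
  · have h1 : ‖∑ n ∈ Finset.Icc a b, B n * ex (2 * Real.pi * (ξ1 + l * (ξ2 - k)) * n)‖ ≤ N := by
      refine (norm_sum_le _ _).trans ((Finset.sum_le_card_nsmul _ _ 1 fun n _ => ?_).trans ?_)
      · rw [norm_mul, norm_ex, mul_one]; exact hB n
      · rw [nsmul_eq_mul]; linarith
    calc _ ≤ (Real.exp (-w ^ 2) * (1 / (1 + ((k : ℝ) - ξ2) ^ 2))) * N :=
          mul_le_mul ((Om_mul_le' hw hk).trans (by gcongr)) h1 (norm_nonneg _) (by positivity)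
      _ = (N * Real.exp (-w ^ 2)) * (1 / (1 + ((k : ℝ) - ξ2) ^ 2)) := by ring
      _ ≤ _ := by gcongr; linarith

lemma Om_mul_Om (x a b : ℝ) :
    Om (x + a) * Om (x + b) = Om x * (Real.exp (2 * Real.pi * (a * b)) * Om (x + a + b)) := by
  unfold Om; simp only [← Real.exp_add]; congr 1; ring

lemma exp_neg_sq_le {w : ℝ} (hw : 0 < w) : Real.exp (-w ^ 2) ≤ 2 / w ^ 4 := by
  have h := Real.pow_div_factorial_le_exp (w ^ 2) (by positivity) 2
  rw [Real.exp_neg, inv_eq_one_div, div_le_div_iff₀ (Real.exp_pos _) (by positivity)]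
  norm_num [Nat.factorial] at h
  nlinarith

/-- The van der Corput step. -/
lemma vdc {b : ℤ → ℂ} {a a' : ℤ} {H : ℕ} {w N δ ε X Y l : ℝ} (hw : 2 ≤ w) (hH : w ^ 4 ≤ H)
    (hε : 0 < ε) (hδ : 0 ≤ δ) (hN : ((Finset.Icc (a - H) a').card : ℝ) + 1 ≤ N)
    (hb : ∀ n, ‖b n‖ ≤ 1) (hS : ∀ n, n ∉ Finset.Icc a a' → b n = 0)
    (hl : ∀ n, ‖b (n + 1) - b n‖ ≤ δ)
    (hg : ∀ h h' k j : ℤ, h ≠ 0 → |h| < H → |h' - l * h| ≤ 1 → |k - Y * h'| ≤ 1 →
      ε ≤ |-(X * h) + l * (Y * h' - k) - j|) :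
    ‖∑ n ∈ Finset.Icc a a', b n * ex (-(Real.pi * X * n ^ 2)) *
        ∑' m : ℤ, (Om ((m - l * n) / w) : ℂ) * ex (Real.pi * Y * m ^ 2)‖ ≤
      80 * N / w + 13 * N * w ^ 3 * δ / ε := by
  have hw0 : 0 < w := by linarith
  have hw1 : 1 ≤ w := by linarith
  have hH0 : (0 : ℝ) < H := lt_of_lt_of_le (by positivity) hH
  have hN0 : 0 ≤ N := le_trans (by positivity) hN
  set S := Finset.Icc (a - H) a' with hSd
  set r : ℕ → ℤ := fun h => round (l * h) with hr
  set τ : ℕ → ℝ := fun h => (r h - l * h) / w with hτ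
  set f : ℤ → ℂ := fun n => b n * ex (-(Real.pi * X * n ^ 2)) *
    ∑' m : ℤ, (Om ((m - l * n) / w) : ℂ) * ex (Real.pi * Y * m ^ 2) with hf
  set v : ℤ → ℕ → ℤ → ℂ := fun n h m => b (n + h) * ex (-(Real.pi * X * ((n : ℝ) + h) ^ 2)) *
    ((Om ((m - l * n) / w + τ h) : ℂ) * ex (Real.pi * Y * ((m : ℝ) + r h) ^ 2)) with hv
  have hτe : ∀ (n m : ℤ) (h : ℕ), (m - l * n) / w + τ h = (m - (l * n - w * τ h)) / w := by
    intro n m h; field_simp; ring
  have hvs : ∀ n h, Summable (v n h) := fun n h => by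
    simp only [hv, hτe]
    exact (gauss_dom hw1 _ (fun m => Real.pi * Y * ((m : ℝ) + r h) ^ 2)).1.mul_left _
  have h1 : ∀ h ∈ Finset.range H, ∑ n ∈ Finset.Icc a a', f n = ∑ n ∈ S, ∑' m, v n h m := by
    intro h hh
    have hh' := Finset.mem_range.1 hh
    have e1 : ∑ n ∈ Finset.Icc a a', f n = ∑' n, f n :=
      (tsum_eq_sum fun n hn => by simp only [hf, hS n hn, zero_mul]).symm
    have e2 : ∑' n, f (n + h) = ∑ n ∈ S, f (n + h) :=
      tsum_eq_sum fun n hn => by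
        have : n + h ∉ Finset.Icc a a' := by
          simp only [hSd, Finset.mem_Icc] at hn ⊢; omega
        simp only [hf, hS _ this, zero_mul]
    rw [e1, ← (Equiv.addRight (h : ℤ)).tsum_eq f]
    simp only [Equiv.coe_addRight]
    rw [e2]
    refine Finset.sum_congr rfl fun n _ => ?_
    simp only [hf, hv]
    rw [tsum_mul_left, ← (Equiv.addRight (r h)).tsum_eq]
    simp only [Equiv.coe_addRight]
    push_cast
    congr 1
    refine tsum_congr fun m => ?_
    congr 3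
    simp only [hτ]; ring
  set A : ℤ → ℤ → ℂ := fun n m => ∑ h ∈ Finset.range H, v n h m with hA
  have h2 : (H : ℂ) * ∑ n ∈ Finset.Icc a a', f n = ∑ n ∈ S, ∑' m, A n m := by
    have e : (H : ℂ) * ∑ n ∈ Finset.Icc a a', f n =
        ∑ _h ∈ Finset.range H, ∑ n ∈ Finset.Icc a a', f n := by
      rw [Finset.sum_const, Finset.card_range, nsmul_eq_mul]
    rw [e, Finset.sum_congr rfl h1, Finset.sum_comm]
    exact Finset.sum_congr rfl fun n _ => (Summable.tsum_finsetSum fun h _ => hvs n h).symm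
  -- the correlation terms
  set κ : ℕ → ℕ → ℂ := fun i j => (Real.exp (2 * Real.pi * (τ i * τ j)) : ℝ) *
    ex (-(Real.pi * X * ((i : ℝ) ^ 2 - j ^ 2)) + Real.pi * Y * ((r i : ℝ) ^ 2 - (r j) ^ 2)) with hκ
  set B : ℕ → ℕ → ℤ → ℂ := fun i j n => b (n + i) * (starRingEnd ℂ) (b (n + j)) with hB
  set T : ℕ → ℕ → ℤ → ℤ → ℂ := fun i j n m => κ i j * (B i j n *
    ex (2 * Real.pi * (-(X * ((i : ℝ) - j))) * n) * ((Om ((m - (l * n - w * (τ i + τ j))) / w) : ℂ) *
      ex (2 * Real.pi * (Y * ((r i : ℝ) - r j)) * m))) with hT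
  set q : ℤ → ℤ → ℝ := fun n m => ‖A n m‖ ^ 2 / Om ((m - l * n) / w) with hq
  have hTs : ∀ i j n, Summable (T i j n) := fun i j n =>
    ((gauss_dom hw1 _ (fun m => 2 * Real.pi * (Y * ((r i : ℝ) - r j)) * m)).1.mul_left _).mul_left _
  have h3 : ∀ n m, (q n m : ℂ) = ∑ i ∈ Finset.range H, ∑ j ∈ Finset.range H, T i j n m := by
    intro n m
    have hρ : (Om ((m - l * n) / w) : ℂ) ≠ 0 := by exact_mod_cast (Om_pos _).ne'
    simp only [hq]
    push_cast
    rw [div_eq_iff hρ, ← Complex.mul_conj', hA, map_sum, Finset.sum_mul_sum, Finset.sum_mul]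
    refine Finset.sum_congr rfl fun i _ => ?_
    rw [Finset.sum_mul]
    refine Finset.sum_congr rfl fun j _ => ?_
    simp only [hv, hT, hκ, hB, map_mul, conj_ex, Complex.conj_ofReal]
    have e1 := congrArg (fun x : ℝ => (x : ℂ)) (Om_mul_Om ((m - l * n) / w) (τ i) (τ j))
    have e2 : (m - l * n) / w + τ i + τ j = (m - (l * n - w * (τ i + τ j))) / w := by
      field_simp; ring
    have e3 : ex (-(Real.pi * X * ((n : ℝ) + i) ^ 2)) * ex (Real.pi * Y * ((m : ℝ) + r i) ^ 2) *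
        ex (- -(Real.pi * X * ((n : ℝ) + j) ^ 2)) * ex (-(Real.pi * Y * ((m : ℝ) + r j) ^ 2)) =
        ex (-(Real.pi * X * ((i : ℝ) ^ 2 - j ^ 2)) + Real.pi * Y * ((r i : ℝ) ^ 2 - (r j) ^ 2)) *
        ex (2 * Real.pi * (-(X * ((i : ℝ) - j))) * n) *
        ex (2 * Real.pi * (Y * ((r i : ℝ) - r j)) * m) := by
      simp only [← ex_add]; congr 1; ring
    simp only [e2, Complex.ofReal_mul] at e1
    linear_combination (b (n + i) * (starRingEnd ℂ) (b (n + j)) *
      (ex (-(Real.pi * X * ((n : ℝ) + i) ^ 2)) * ex (Real.pi * Y * ((m : ℝ) + r i) ^ 2) *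
        ex (- -(Real.pi * X * ((n : ℝ) + j) ^ 2)) * ex (-(Real.pi * Y * ((m : ℝ) + r j) ^ 2)))) * e1 +
      (b (n + i) * (starRingEnd ℂ) (b (n + j)) * (Om ((m - l * n) / w) : ℂ) *
        (Real.exp (2 * Real.pi * (τ i * τ j)) : ℝ) *
        (Om ((m - (l * n - w * (τ i + τ j))) / w) : ℂ)) * e3
  have hqs : ∀ n, Summable (q n) := fun n => by
    rw [← Complex.summable_ofReal]
    simp only [h3]
    exact summable_sum fun i _ => summable_sum fun j _ => hTs i j n
  have hτb : ∀ h, |τ h| ≤ 1 / 4 := fun h => by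
    simp only [hτ, hr]
    rw [abs_div, abs_of_pos hw0, div_le_iff₀ hw0, abs_sub_comm]
    linarith [abs_sub_round (l * h)]
  have hκb : ∀ i j, ‖κ i j‖ ≤ 5 := fun i j => by
    simp only [hκ]
    rw [norm_mul, norm_ex, mul_one, Complex.norm_real, Real.norm_eq_abs, abs_of_pos (Real.exp_pos _)]
    have h4 : τ i * τ j ≤ 1 / 4 * (1 / 4) :=
      (le_abs_self _).trans (by rw [abs_mul]; gcongr <;> exact hτb _)
    have h5 : 2 * Real.pi * (τ i * τ j) ≤ 1 := by nlinarith [Real.pi_pos, Real.pi_le_four]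
    linarith [Real.exp_le_exp.2 h5, Real.exp_one_lt_d9]
  have hBb : ∀ i j n, ‖B i j n‖ ≤ 1 := fun i j n => by
    simp only [hB]; rw [norm_mul, Complex.norm_conj]
    exact mul_le_one₀ (hb _) (norm_nonneg _) (hb _)
  set c1 := 5 * (N * (10 * w)) with hc1
  set c2 := 5 * (10 * w * (N * (2 * δ) / (4 * ε) + N * Real.exp (-w ^ 2))) with hc2
  have h6 : ∀ i ∈ Finset.range H, ∀ j ∈ Finset.range H,
      ‖∑ n ∈ S, ∑' m, T i j n m‖ ≤ (if j = i then c1 else 0) + c2 := by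
    intro i hi j hj
    have hi' := Finset.mem_range.1 hi
    have hj' := Finset.mem_range.1 hj
    simp only [hT, tsum_mul_left, ← Finset.mul_sum]
    rw [norm_mul]
    split_ifs with hij
    · have := corr_triv hw1 (show (S.card : ℝ) ≤ N by linarith) (hBb i j)
        (fun n => 2 * Real.pi * (-(X * ((i : ℝ) - j))) * n) (fun n => l * n - w * (τ i + τ j))
        (fun m => 2 * Real.pi * (Y * ((r i : ℝ) - r j)) * m)
      have h7 : 0 ≤ c2 := by positivity
      exact (mul_le_mul (hκb i j) this (norm_nonneg _) (by norm_num)).trans (by linarith)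
    · rw [zero_add]
      refine mul_le_mul (hκb i j) (corr_good hw hε (by positivity) hN (hBb i j) ?_ ?_ ?_)
        (norm_nonneg _) (by norm_num)
      · intro n hn
        have : n + i ∉ Finset.Icc a a' := by simp only [Finset.mem_Icc] at hn ⊢; omega
        simp only [hB, hS _ this, zero_mul]
      · intro n
        have e : B i j (n + 1) - B i j n = (b (n + i + 1) - b (n + i)) *
            (starRingEnd ℂ) (b (n + j + 1)) + b (n + i) *
            (starRingEnd ℂ) (b (n + j + 1) - b (n + j)) := by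
          simp only [hB, map_sub, add_right_comm n 1]; ring
        rw [e]
        refine (norm_add_le _ _).trans ?_
        rw [norm_mul, norm_mul, Complex.norm_conj, Complex.norm_conj]
        have h8 := mul_le_mul (hl (n + i)) (hb (n + j + 1)) (norm_nonneg _) hδ
        have h9 := mul_le_mul (hb (n + i)) (hl (n + j)) (norm_nonneg _) zero_le_one
        linarith
      · intro k j' hk
        have := hg ((i : ℤ) - j) (r i - r j) k j' (by omega) (by rw [abs_lt]; omega) (by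
          push_cast
          have e : (r i : ℝ) - r j - l * (i - j) = (l * j - r j) - (l * i - r i) := by ring
          rw [e]
          linarith [abs_sub (l * j - r j) (l * i - r i), abs_sub_round (l * i),
            abs_sub_round (l * j)]) (by push_cast; exact hk)
        push_cast at this
        exact this
  have h7 : ∑ n ∈ S, ∑' m, q n m ≤ H * c1 + H ^ 2 * c2 := by
    have e : ((∑ n ∈ S, ∑' m, q n m : ℝ) : ℂ) =
        ∑ i ∈ Finset.range H, ∑ j ∈ Finset.range H, ∑ n ∈ S, ∑' m, T i j n m := by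
      push_cast
      simp only [h3]
      rw [Finset.sum_congr rfl fun n _ => Summable.tsum_finsetSum
        fun i _ => summable_sum fun j _ => hTs i j n, Finset.sum_comm]
      refine Finset.sum_congr rfl fun i _ => ?_
      rw [Finset.sum_congr rfl fun n _ => Summable.tsum_finsetSum fun j _ => hTs i j n,
        Finset.sum_comm]
    refine (le_abs_self _).trans ?_
    rw [← Real.norm_eq_abs, ← Complex.norm_real, e]
    refine (norm_sum_le _ _).trans ((Finset.sum_le_card_nsmul _ _ (c1 + H * c2)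
      fun i hi => ?_).trans_eq (by rw [Finset.card_range, nsmul_eq_mul]; ring))
    refine (norm_sum_le _ _).trans ((Finset.sum_le_sum (h6 i hi)).trans_eq ?_)
    rw [Finset.sum_add_distrib, Finset.sum_ite_eq' , if_pos hi, Finset.sum_const,
      Finset.card_range, nsmul_eq_mul]
  set t := H / w ^ 2 with ht
  have ht0 : 0 < t := by positivity
  have h8 : ∀ n, ‖∑' m, A n m‖ ≤ t / 2 * (10 * w) + 1 / (2 * t) * ∑' m, q n m := by
    intro n
    have hs := (((count_summable hw1 (l * n)).hasSum.mul_left (t / 2)).add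
      ((hqs n).hasSum.mul_left (1 / (2 * t))))
    refine (tsum_of_norm_bounded hs fun m => ?_).trans ?_
    · have hρ := Om_pos ((m - l * n) / w)
      have h9 : ‖A n m‖ ≤ t / 2 * Om ((m - l * n) / w) + 1 / (2 * t) * q n m := by
        simp only [hq]
        rw [← sub_nonneg]
        have : t / 2 * Om ((m - l * n) / w) + 1 / (2 * t) * (‖A n m‖ ^ 2 / Om ((m - l * n) / w)) -
            ‖A n m‖ = (t * Om ((m - l * n) / w) - ‖A n m‖) ^ 2 / (2 * t * Om ((m - l * n) / w)) := by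
          field_simp; ring
        rw [this]; positivity
      exact h9.trans (by gcongr; exact Om_le _)
    · gcongr; exact count_tsum hw1 _
  have h9 : H * ‖∑ n ∈ Finset.Icc a a', f n‖ ≤
      N * (t / 2 * (10 * w)) + 1 / (2 * t) * (H * c1 + H ^ 2 * c2) := by
    have := congrArg norm h2
    rw [norm_mul, Complex.norm_natCast] at this
    rw [this]
    refine (norm_sum_le _ _).trans ((Finset.sum_le_sum fun n _ => h8 n).trans ?_)
    rw [Finset.sum_add_distrib, Finset.sum_const, nsmul_eq_mul, ← Finset.mul_sum]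
    gcongr; linarith
  have h10 : N * (t / 2 * (10 * w)) + 1 / (2 * t) * (H * c1 + H ^ 2 * c2) =
      H * (5 * N / w + 25 * N * (w ^ 3 / H) + 25 / 2 * (N * w ^ 3 * δ / ε) +
        25 * N * w ^ 3 * Real.exp (-w ^ 2)) := by
    rw [ht, hc1, hc2]; field_simp; ring
  rw [h10] at h9
  refine (le_of_mul_le_mul_left h9 hH0).trans ?_
  have h11 : w ^ 3 / H ≤ 1 / w := by
    rw [div_le_div_iff₀ hH0 hw0]; linarith [show w ^ 3 * w = w ^ 4 by ring]
  have h12 : 25 * N * w ^ 3 * Real.exp (-w ^ 2) ≤ 50 * N / w :=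
    (mul_le_mul_of_nonneg_left (exp_neg_sq_le hw0) (by positivity)).trans_eq (by field_simp; ring)
  have h13 : 25 * N * (w ^ 3 / H) ≤ 25 * N / w :=
    (mul_le_mul_of_nonneg_left h11 (by positivity)).trans_eq (by ring)
  have h14 : 0 ≤ N * w ^ 3 * δ / ε := by positivity
  have e1 : 80 * N / w = 5 * N / w + 25 * N / w + 50 * N / w := by ring
  have e2 : 13 * N * w ^ 3 * δ / ε = 13 * (N * w ^ 3 * δ / ε) := by ring
  rw [e1, e2]; linarith

/-- The double sum cut to the strip around `m = l n`. -/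
noncomputable def gsum (S : Finset ℤ) (α β : ℤ → ℂ) (w X Y l : ℝ) : ℂ :=
  ∑ n ∈ S, ∑ m ∈ S, α n * (starRingEnd ℂ) (β m) *
    ((Om ((m - l * n) / w) : ℂ) * ex (Real.pi * (Y * m ^ 2 - X * n ^ 2)))

lemma gsum_triv {S : Finset ℤ} {α β : ℤ → ℂ} {w N : ℝ} (hw : 1 ≤ w) (hN : (S.card : ℝ) ≤ N)
    (hα : ∀ n, ‖α n‖ ≤ 1) (hβ : ∀ n, ‖β n‖ ≤ 1) (X Y l : ℝ) :
    ‖gsum S α β w X Y l‖ ≤ N * (10 * w) := by
  refine (norm_sum_le _ _).trans ((Finset.sum_le_card_nsmul _ _ (10 * w) fun n _ => ?_).trans ?_)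
  · refine (norm_sum_le _ _).trans ((Finset.sum_le_sum fun m _ => ?_).trans (count hw (l * n) S))
    rw [norm_mul, norm_mul, norm_mul, norm_ex, mul_one, Complex.norm_conj, Complex.norm_real,
      Real.norm_eq_abs, abs_of_pos (Om_pos _)]
    exact (mul_le_mul (mul_le_one₀ (hα n) (norm_nonneg _) (hβ m)) (Om_le _) (Om_pos _).le
      zero_le_one).trans_eq (one_mul _)
  · rw [nsmul_eq_mul]; gcongr

lemma gsum_good {α β : ℤ → ℂ} {a a' : ℤ} {H : ℕ} {w N δ ε X Y l Λ : ℝ} (hw : 2 ≤ w)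
    (hH : w ^ 4 ≤ H) (hε : 0 < ε) (hδ : 0 ≤ δ)
    (hN : ((Finset.Icc (a - H) a').card : ℝ) + 1 ≤ N) (hl0 : 0 ≤ l) (hl1 : l ≤ Λ)
    (hα : ∀ n, ‖α n‖ ≤ 1) (hβ : ∀ n, ‖β n‖ ≤ 1)
    (hαS : ∀ n, n ∉ Finset.Icc a a' → α n = 0) (hβS : ∀ n, n ∉ Finset.Icc a a' → β n = 0)
    (hαl : ∀ n, ‖α (n + 1) - α n‖ ≤ δ) (hβl : ∀ n, ‖β (n + 1) - β n‖ ≤ δ)
    (hg : ∀ h h' k j : ℤ, h ≠ 0 → |h| < H → |h' - l * h| ≤ 1 → |k - Y * h'| ≤ 1 →
      ε ≤ |-(X * h) + l * (Y * h' - k) - j|) :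
    ‖gsum (Finset.Icc a a') α β w X Y l‖ ≤
      N * (20 * δ * w ^ 2) + (80 * N / w + 13 * N * w ^ 3 * (δ * (Λ + 2)) / ε) := by
  have hw0 : 0 < w := by linarith
  have hw1 : 1 ≤ w := by linarith
  set b : ℤ → ℂ := fun n => α n * (starRingEnd ℂ) (β (round (l * n))) with hb
  have hv := vdc (b := b) (δ := δ * (Λ + 2)) hw hH hε (by nlinarith) hN
    (fun n => by
      simp only [hb]; rw [norm_mul, Complex.norm_conj]
      exact mul_le_one₀ (hα n) (norm_nonneg _) (hβ _))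
    (fun n hn => by simp only [hb, hαS n hn, zero_mul])
    (fun n => by
      have e : b (n + 1) - b n = (α (n + 1) - α n) * (starRingEnd ℂ) (β (round (l * (n + 1 : ℤ)))) +
          α n * (starRingEnd ℂ) (β (round (l * (n + 1 : ℤ))) - β (round (l * n))) := by
        simp only [hb, map_sub]; ring
      rw [e]
      refine (norm_add_le _ _).trans ?_
      rw [norm_mul, norm_mul, Complex.norm_conj, Complex.norm_conj]
      have h1 := mul_le_mul (hαl n) (hβ (round (l * (n + 1 : ℤ)))) (norm_nonneg _) hδ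
      have h2 : |(round (l * (n + 1 : ℤ)) : ℝ) - round (l * n)| ≤ Λ + 1 := by
        have h3 := abs_le.1 (abs_sub_round (l * (n + 1 : ℤ)))
        have h4 := abs_le.1 (abs_sub_round (l * n))
        have h5 : l * ((n + 1 : ℤ) : ℝ) = l * n + l := by push_cast; ring
        rw [abs_le]; constructor <;> linarith [h3.1, h3.2, h4.1, h4.2]
      have h3 := mul_le_mul (hα n) ((lip_int hβl _ _).trans (mul_le_mul_of_nonneg_left h2 hδ))
        (norm_nonneg _) zero_le_one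
      linarith) hg
  refine (norm_le_norm_sub_add _ _).trans (add_le_add ?_ hv)
  have hc : ((Finset.Icc a a').card : ℝ) ≤ N := by
    refine le_trans ?_ ((le_add_of_nonneg_right zero_le_one).trans hN)
    exact_mod_cast Finset.card_le_card (Finset.Icc_subset_Icc (by omega) le_rfl)
  unfold gsum
  rw [← Finset.sum_sub_distrib]
  refine (norm_sum_le _ _).trans
    ((Finset.sum_le_card_nsmul _ _ (20 * δ * w ^ 2) fun n _ => ?_).trans ?_)
  · have e1 : ∑ m ∈ Finset.Icc a a', α n * (starRingEnd ℂ) (β m) *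
        ((Om ((m - l * n) / w) : ℂ) * ex (Real.pi * (Y * m ^ 2 - X * n ^ 2))) =
        ∑' m : ℤ, α n * (starRingEnd ℂ) (β m) *
        ((Om ((m - l * n) / w) : ℂ) * ex (Real.pi * (Y * m ^ 2 - X * n ^ 2))) :=
      (tsum_eq_sum fun m hm => by rw [hβS m hm]; simp).symm
    have hs1 : Summable fun m : ℤ => α n * (starRingEnd ℂ) (β m) *
        ((Om ((m - l * n) / w) : ℂ) * ex (Real.pi * (Y * m ^ 2 - X * n ^ 2))) :=
      summable_of_ne_finset_zero (s := Finset.Icc a a') fun m hm => by rw [hβS m hm]; simp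
    have hs2 := ((gauss_dom hw1 (l * n) fun m : ℤ => Real.pi * Y * m ^ 2).1).mul_left
      (b n * ex (-(Real.pi * X * n ^ 2)))
    rw [e1, ← tsum_mul_left, ← hs1.tsum_sub hs2]
    refine (dom hw1 (B := 2 * δ * w) (by positivity) (l * n) fun m => ?_).2.trans_eq (by ring)
    have e2 : ex (Real.pi * (Y * m ^ 2 - X * n ^ 2)) =
        ex (-(Real.pi * X * n ^ 2)) * ex (Real.pi * Y * m ^ 2) := by
      rw [← ex_add]; congr 1; ring
    have e3 : α n * (starRingEnd ℂ) (β m) *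
        ((Om ((m - l * n) / w) : ℂ) * ex (Real.pi * (Y * m ^ 2 - X * n ^ 2))) -
        b n * ex (-(Real.pi * X * n ^ 2)) * ((Om ((m - l * n) / w) : ℂ) * ex (Real.pi * Y * m ^ 2)) =
        α n * (starRingEnd ℂ) (β m - β (round (l * n))) *
        ((Om ((m - l * n) / w) : ℂ) * ex (Real.pi * (Y * m ^ 2 - X * n ^ 2))) := by
      simp only [hb, map_sub, e2]; ring
    rw [e3, norm_mul, norm_mul, norm_mul, norm_ex, mul_one, Complex.norm_conj, Complex.norm_real,
      Real.norm_eq_abs, abs_of_pos (Om_pos _)]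
    have h1 : |(m : ℝ) - round (l * n)| ≤ w * (|(m - l * n) / w| + 1) := by
      rw [abs_div, abs_of_pos hw0, mul_add, mul_div_cancel₀ _ hw0.ne']
      linarith [abs_sub_le (m : ℝ) (l * n) (round (l * n)), abs_sub_round (l * n)]
    have h2 := mul_le_mul (hα n) ((lip_int hβl _ _).trans (mul_le_mul_of_nonneg_left h1 hδ))
      (norm_nonneg _) zero_le_one
    have h3 := abs_Om_le ((m - l * n) / w)
    calc _ ≤ (1 * (δ * (w * (|(m - l * n) / w| + 1)))) * Om ((m - l * n) / w) :=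
          mul_le_mul_of_nonneg_right h2 (Om_pos _).le
      _ = δ * w * ((|(m - l * n) / w| + 1) * Om ((m - l * n) / w)) := by ring
      _ ≤ δ * w * (2 / (1 + ((m - l * n) / w) ^ 2)) := by gcongr
      _ = _ := by ring
  · rw [nsmul_eq_mul]; gcongr

end Pool.Agent.MP_74e98a_nt.H83
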